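import Pool.Agent.Lib.MP_8f66f0_al_ZX.Lip

/-! Project ZERO, part X: bounded geometry at small scales and finite Hausdorff dimension. -/

set_option autoImplicit false

namespace Pool.Agent.ZX

open Matrix Filter Topology Set

variable {n : Type} [Fintype n] [DecidableEq n]

open Classical in
/-- A positive definite matrix from its entries. -/
noncomputable def mk (A : n → n → ℝ) : PD n :=
  if h : (Matrix.of A).PosDef then ⟨Matrix.of A, h⟩ else ⟨1, Matrix.PosDef.one⟩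

theorem mk_val {A : n → n → ℝ} (h : (Matrix.of A).PosDef) : (mk A).1 = Matrix.of A := by
  unfold mk
  rw [dif_pos h]

/-- The entries of positive definite matrices. -/
def pe (n : Type) [Fintype n] [DecidableEq n] : Set (n → n → ℝ) :=
  {A | (Matrix.of A).PosDef}

theorem mk_lip {A₀ : n → n → ℝ} (h₀ : A₀ ∈ pe n) :
    ∃ (ρ C : ℝ), 0 < ρ ∧ 0 ≤ C ∧ ∀ A ∈ Metric.ball A₀ ρ ∩ pe n, ∀ B ∈ Metric.ball A₀ ρ ∩ pe n,
      dist (mk A) (mk B) ≤ C * dist A B := by
  have h₀' : (Matrix.of A₀).PosDef := h₀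
  obtain ⟨b, hb, hb1, hb2⟩ := bds h₀'
  have hnb : 0 ≤ nk n * b := mul_nonneg nk_nonneg hb.le
  set ρ := 1 / (8 * (nk n * b + 1)) with hρ
  have hρ0 : 0 < ρ := by positivity
  have hρ1 : ρ * (nk n * b) ≤ 1 / 8 := by
    have h1 : ρ * (8 * (nk n * b + 1)) = 1 := by
      rw [hρ]
      exact one_div_mul_cancel (by positivity)
    nlinarith
  refine ⟨ρ, 4 * (nk n * b), hρ0, by positivity, ?_⟩
  rintro A ⟨hA, hA'⟩ B ⟨hB, hB'⟩
  have pA : (Matrix.of A).PosDef := hA'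
  have pB : (Matrix.of B).PosDef := hB'
  have hent : ∀ X Y : n → n → ℝ, ∀ i j, |X i j - Y i j| ≤ dist X Y := by
    intro X Y i j
    exact (dist_le_pi_dist (X i) (Y i) j).trans (dist_le_pi_dist X Y i)
  have hBb : ∀ v, nn v ≤ (2 * b) * qf (Matrix.of B) v := by
    intro v
    have h1 : |qf (Matrix.of B - Matrix.of A₀) v| ≤ ρ * nk n * nn v :=
      qf_abs_le (fun i j => (hent B A₀ i j).trans (le_of_lt hB)) v
    rw [qf_sub] at h1
    have h2 := (abs_le.1 h1).1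
    have h3 : b * (ρ * nk n * nn v) ≤ 1 / 8 * nn v := by
      calc b * (ρ * nk n * nn v) = ρ * (nk n * b) * nn v := by ring
        _ ≤ 1 / 8 * nn v := mul_le_mul_of_nonneg_right hρ1 (nn_nonneg v)
    have h4 := hb1 v
    have h5 := nn_nonneg v
    have h6 : b * qf (Matrix.of A₀) v - b * (ρ * nk n * nn v) ≤ b * qf (Matrix.of B) v := by
      have : qf (Matrix.of A₀) v - ρ * nk n * nn v ≤ qf (Matrix.of B) v := by linarith
      nlinarith
    linarith
  have hd : dist A B ≤ 2 * ρ := by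
    have h1 := dist_triangle_right A B A₀
    have h2 : dist A A₀ < ρ := hA
    have h3 : dist B A₀ < ρ := hB
    linarith
  have hs : dist A B * nk n * (2 * b) ≤ 1 / 2 := by
    calc dist A B * nk n * (2 * b) = dist A B * (2 * (nk n * b)) := by ring
      _ ≤ 2 * ρ * (2 * (nk n * b)) := mul_le_mul_of_nonneg_right hd (by positivity)
      _ = 4 * (ρ * (nk n * b)) := by ring
      _ ≤ 1 / 2 := by linarith
  have h1 := nr_of_ent hBb (qf_nonneg pB) dist_nonneg (hent A B) hs (by positivity)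
  rw [PD.dist_eq, mk_val pA, mk_val pB]
  refine ((td_le_iff pA pB).2 ⟨?_, h1⟩).trans (le_of_eq (by ring))
  have : 0 ≤ dist A B * nk n * (2 * b) :=
    mul_nonneg (mul_nonneg dist_nonneg nk_nonneg) (by positivity)
  linarith

theorem dim_prod : dimH (univ : Set (PD n × PD n)) ≤
    ((Module.finrank ℝ ((n → n → ℝ) × (n → n → ℝ)) : ℕ) : ENNReal) := by
  have h1 : (univ : Set (PD n × PD n)) =
      (fun p : (n → n → ℝ) × (n → n → ℝ) => (mk p.1, mk p.2)) '' (pe n ×ˢ pe n) := by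
    ext ⟨A, B⟩
    refine ⟨fun _ => ⟨(PD.en A, PD.en B), ⟨A.2, B.2⟩, ?_⟩, fun _ => mem_univ _⟩
    exact Prod.ext (Subtype.ext (mk_val A.2)) (Subtype.ext (mk_val B.2))
  rw [h1]
  refine (dimH_image_le_of_locally_lipschitzOn ?_).trans
    ((dimH_mono (subset_univ _)).trans (le_of_eq (Real.dimH_univ_eq_finrank _)))
  rintro ⟨A, B⟩ ⟨hA, hB⟩
  obtain ⟨ρ, C, h2, h3, h4⟩ := mk_lip (A₀ := A) hA
  obtain ⟨ρ', C', h2', h3', h4'⟩ := mk_lip (A₀ := B) hB
  refine ⟨⟨max C C', h3.trans (le_max_left _ _)⟩,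
    (Metric.ball A ρ ×ˢ Metric.ball B ρ') ∩ (pe n ×ˢ pe n), ?_, ?_⟩
  · refine Filter.inter_mem ?_ self_mem_nhdsWithin
    refine mem_nhdsWithin_of_mem_nhds ?_
    exact prod_mem_nhds (Metric.ball_mem_nhds _ h2) (Metric.ball_mem_nhds _ h2')
  · refine LipschitzOnWith.of_dist_le_mul ?_
    rintro ⟨X, Y⟩ ⟨⟨hX, hY⟩, hX', hY'⟩ ⟨Z, W⟩ ⟨⟨hZ, hW⟩, hZ', hW'⟩
    change max (dist (mk X) (mk Z)) (dist (mk Y) (mk W)) ≤ max C C' * max (dist X Z) (dist Y W)
    have k1 := h4 X ⟨hX, hX'⟩ Z ⟨hZ, hZ'⟩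
    have k2 := h4' Y ⟨hY, hY'⟩ W ⟨hW, hW'⟩
    refine max_le (k1.trans ?_) (k2.trans ?_)
    · exact mul_le_mul (le_max_left _ _) (le_max_left _ _) dist_nonneg
        (h3.trans (le_max_left _ _))
    · exact mul_le_mul (le_max_right _ _) (le_max_right _ _) dist_nonneg
        (h3.trans (le_max_left _ _))

/-- Finite dimension. -/
theorem dim_sub (S : Set (PD n)) : ∃ D : ℕ, dimH (univ : Set (S × S)) ≤ D := by
  have h1 : Isometry (fun p : S × S => ((p.1 : PD n), (p.2 : PD n))) :=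
    Isometry.of_dist_eq fun p q => rfl
  refine ⟨Module.finrank ℝ ((n → n → ℝ) × (n → n → ℝ)), ?_⟩
  rw [← h1.dimH_image]
  exact (dimH_mono (subset_univ _)).trans dim_prod

/-- Bounded geometry at the unit matrix. -/
theorem dbl_one (k : ℕ) (hk : 0 < k) : ∃ C : ℕ, ∀ r : ℝ, 0 < r → k * r ≤ 1 →
    ∀ F : Finset (PD n), (∀ y ∈ F, td 1 y.1 ≤ k * r) →
      (∀ y ∈ F, ∀ z ∈ F, y ≠ z → r ≤ dist y z) → F.card ≤ C := by
  have hk' : (1 : ℝ) ≤ k := by exact_mod_cast hk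
  have e1 := Real.exp_pos (1 : ℝ)
  have hnk : 0 ≤ nk n := nk_nonneg
  set c : ℝ := 1 / (4 * Real.exp 1 * (nk n + 1)) with hc
  have hc0 : 0 < c := by positivity
  have hc1 : c * (4 * Real.exp 1 * (nk n + 1)) = 1 := by
    rw [hc]
    exact one_div_mul_cancel (by positivity)
  set L : ℤ := ⌈6 * (k : ℝ) / c⌉ + 1 with hL
  refine ⟨(Fintype.piFinset fun _ : n => Fintype.piFinset fun _ : n =>
    Finset.Icc (-L) L).card, fun r hr hkr F hF hsep => ?_⟩
  have hr1 : r ≤ 1 := by nlinarith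
  have hη : 0 < c * r := mul_pos hc0 hr
  refine Finset.card_le_card_of_injOn
    (fun y : PD n => fun i j => ⌊(y.1 i j - (1 : Matrix n n ℝ) i j) / (c * r)⌋) ?_ ?_
  · intro y hy
    have h1 := ((td_le_iff Matrix.PosDef.one y.2).1 (hF y hy)).2
    have h2 : ∀ v, qf (1 : Matrix n n ℝ) v ≤ 1 * nn v := fun v => by rw [qf_one, one_mul]
    have h3 := ent_of_nr y.2 Matrix.PosDef.one h2 zero_le_one (by positivity) h1.symm
    have h4 : Real.exp (k * r) - 1 ≤ 2 * (k * r) := by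
      have h5 := Real.abs_exp_sub_one_le (x := k * r) (by
        rw [abs_of_nonneg (by positivity)]
        exact hkr)
      rw [abs_of_nonneg (a := (k : ℝ) * r) (by positivity)] at h5
      exact (le_abs_self _).trans h5
    rw [Finset.mem_coe, Fintype.mem_piFinset]
    intro i
    rw [Fintype.mem_piFinset]
    intro j
    have h5 : |y.1 i j - (1 : Matrix n n ℝ) i j| ≤ 6 * k * r := by
      refine (h3 i j).trans ?_
      linarith
    have h6 : |(y.1 i j - (1 : Matrix n n ℝ) i j) / (c * r)| ≤ 6 * (k : ℝ) / c := by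
      rw [abs_div, abs_of_pos hη, div_le_div_iff₀ hη hc0]
      calc |y.1 i j - (1 : Matrix n n ℝ) i j| * c ≤ 6 * k * r * c :=
            mul_le_mul_of_nonneg_right h5 hc0.le
        _ = 6 * k * (c * r) := by ring
    have h7 := Int.le_ceil (6 * (k : ℝ) / c)
    rw [abs_le] at h6
    rw [Finset.mem_Icc]
    constructor
    · rw [Int.le_floor, hL]
      push_cast
      linarith [h6.1]
    · have h8 : (⌊(y.1 i j - (1 : Matrix n n ℝ) i j) / (c * r)⌋ : ℝ) ≤
          ⌈6 * (k : ℝ) / c⌉ := (Int.floor_le _).trans (h6.2.trans h7)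
      have h9 : ⌊(y.1 i j - (1 : Matrix n n ℝ) i j) / (c * r)⌋ ≤ ⌈6 * (k : ℝ) / c⌉ := by
        exact_mod_cast h8
      change ⌊(y.1 i j - (1 : Matrix n n ℝ) i j) / (c * r)⌋ ≤ L
      omega
  · intro y hy z hz hyz
    by_contra hne
    have h1 := hsep y hy z hz hne
    have h2 : ∀ i j, |y.1 i j - z.1 i j| ≤ c * r := by
      intro i j
      have h3 : ⌊(y.1 i j - (1 : Matrix n n ℝ) i j) / (c * r)⌋ =
          ⌊(z.1 i j - (1 : Matrix n n ℝ) i j) / (c * r)⌋ := congrFun (congrFun hyz i) j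
      have h4 := Int.abs_sub_lt_one_of_floor_eq_floor h3
      rw [← sub_div, sub_sub_sub_cancel_right, abs_div, abs_of_pos hη, div_lt_one hη] at h4
      exact h4.le
    have h3 := ((td_le_iff Matrix.PosDef.one z.2).1 (hF z hz)).2
    rw [nr_iff_qf] at h3
    have h4 : ∀ v, nn v ≤ Real.exp 1 * qf z.1 v := by
      intro v
      have h5 := (h3 v).1
      rw [qf_one] at h5
      exact h5.trans (mul_le_mul_of_nonneg_right (Real.exp_le_exp.2 hkr) (qf_nonneg z.2 v))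
    have h5 : c * r * nk n * Real.exp 1 ≤ r / 4 := by
      have h6 : c * nk n * Real.exp 1 ≤ 1 / 4 := by nlinarith [mul_pos hc0 e1]
      calc c * r * nk n * Real.exp 1 = r * (c * nk n * Real.exp 1) := by ring
        _ ≤ r * (1 / 4) := mul_le_mul_of_nonneg_left h6 hr.le
        _ = r / 4 := by ring
    have h6 := nr_of_ent h4 (qf_nonneg z.2) hη.le h2 (by linarith) e1.le
    have h7 : td y.1 z.1 ≤ 2 * (c * r * nk n * Real.exp 1) := (td_le_iff y.2 z.2).2
      ⟨by positivity, h6⟩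
    have h8 : r ≤ td y.1 z.1 := h1
    linarith

/-- Bounded geometry at small scales. -/
theorem PD.dbl (k : ℕ) : ∃ C : ℕ, ∀ r : ℝ, 0 < r → k * r ≤ 1 →
    ∀ (x : PD n) (F : Finset (PD n)), (∀ y ∈ F, dist x y ≤ k * r) →
      (∀ y ∈ F, ∀ z ∈ F, y ≠ z → r ≤ dist y z) → F.card ≤ C := by
  rcases Nat.eq_zero_or_pos k with rfl | hk
  · refine ⟨1, fun r hr _ x F hF _ => ?_⟩
    rw [Finset.card_le_one]
    intro y hy z hz
    have h1 : ∀ y ∈ F, x = y := fun y hy => by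
      have := hF y hy
      rw [Nat.cast_zero, zero_mul] at this
      exact dist_le_zero.1 this
    rw [← h1 y hy, ← h1 z hz]
  obtain ⟨C, hC⟩ := dbl_one (n := n) k hk
  refine ⟨C, fun r hr hkr x F hF hsep => ?_⟩
  obtain ⟨g, d, h1, h2, h3, h4⟩ := simd' x.2 x.2
  have hg1 : IsUnit (g⁻¹).det := by rw [det_nonsing_inv]; exact h1.ringInverse
  set f : PD n → PD n := fun y => ⟨g⁻¹ * y.1 * (g⁻¹)ᵀ, posDef_cong hg1 y.2⟩ with hf
  have hfd : ∀ y z, dist (f y) (f z) = dist y z := fun y z => td_cong hg1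
  have hfi : Function.Injective f := fun y z h => by
    rw [← dist_le_zero, ← hfd, h, dist_self]
  have hx : (f x).1 = 1 := by
    have := inv_cancel h1 1
    rw [Matrix.mul_one] at this
    rw [hf]
    change g⁻¹ * x.1 * (g⁻¹)ᵀ = 1
    rw [h3, fr_one, this]
  have h5 := hC r hr hkr (F.map ⟨f, hfi⟩) (fun y hy => by
    obtain ⟨z, hz, rfl⟩ := Finset.mem_map.1 hy
    have h6 := hF z hz
    rw [← hfd] at h6
    change td (f x).1 (f z).1 ≤ _ at h6
    rwa [hx] at h6) (fun y hy z hz hyz => by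
    obtain ⟨y', hy', rfl⟩ := Finset.mem_map.1 hy
    obtain ⟨z', hz', rfl⟩ := Finset.mem_map.1 hz
    change r ≤ dist (f y') (f z')
    rw [hfd]
    exact hsep y' hy' z' hz' fun h => hyz (by rw [h]))
  rwa [Finset.card_map] at h5

/-- Bounded geometry of subsets. -/
theorem dbl_sub (S : Set (PD n)) : ∃ r₀ : ℝ, 0 < r₀ ∧ ∀ k : ℕ, ∃ C : ℕ, ∀ r : ℝ, 0 < r →
    k * r ≤ r₀ → ∀ (x : S) (F : Finset S), (∀ y ∈ F, dist x y ≤ k * r) →
      (∀ y ∈ F, ∀ z ∈ F, y ≠ z → r ≤ dist y z) → F.card ≤ C := by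
  refine ⟨1, one_pos, fun k => ?_⟩
  obtain ⟨C, hC⟩ := PD.dbl (n := n) k
  refine ⟨C, fun r hr hkr x F hF hsep => ?_⟩
  have h5 := hC r hr hkr x.1 (F.map ⟨Subtype.val, Subtype.val_injective⟩) (fun y hy => by
    obtain ⟨z, hz, rfl⟩ := Finset.mem_map.1 hy
    exact hF z hz) (fun y hy z hz hyz => by
    obtain ⟨y', hy', rfl⟩ := Finset.mem_map.1 hy
    obtain ⟨z', hz', rfl⟩ := Finset.mem_map.1 hz
    exact hsep y' hy' z' hz' fun h => hyz (by rw [h]))
  rwa [Finset.card_map] at h5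

end Pool.Agent.ZX
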