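import Mathlib

/-!
# PROJECT ZERO, part X: a torsion free normal subgroup of finite index of the automorphism group

The ring `O` is free of finite rank over `ℤ`. The automorphisms `g` with `g x - x ∈ 6 O` for all `x` form
a torsion free normal subgroup of finite index.
-/

set_option autoImplicit false

namespace Pool.Agent.ZX

open Module

variable {O : Type} [Ring O]

/-- The congruence subgroup. -/
def cong (O : Type) [Ring O] (m : ℕ) : Subgroup (O ≃+* O) where
  carrier := {g | ∀ x : O, ∃ y : O, g x - x = (m : ℤ) • y}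
  one_mem' := fun x => ⟨0, by simp⟩
  mul_mem' := by
    intro g h hg hh x
    obtain ⟨y, hy⟩ := hg (h x)
    obtain ⟨z, hz⟩ := hh x
    refine ⟨y + z, ?_⟩
    have e1 : (g * h) x = g (h x) := rfl
    rw [e1, smul_add, ← hy, ← hz]
    abel
  inv_mem' := by
    intro g hg x
    obtain ⟨y, hy⟩ := hg (g⁻¹ x)
    have e1 : g (g⁻¹ x) = x := g.apply_symm_apply x
    refine ⟨-y, ?_⟩
    rw [smul_neg, ← hy, e1]
    abel

theorem mem_cong {m : ℕ} {g : O ≃+* O} :
    g ∈ cong O m ↔ ∀ x : O, ∃ y : O, g x - x = (m : ℤ) • y := Iff.rfl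

theorem cong_normal (m : ℕ) : (cong O m).Normal := by
  constructor
  intro g hg h x
  obtain ⟨y, hy⟩ := hg (h⁻¹ x)
  refine ⟨h y, ?_⟩
  have e1 : (h * g * h⁻¹) x = h (g (h⁻¹ x)) := rfl
  have e2 : h (h⁻¹ x) = x := h.apply_symm_apply x
  rw [e1]
  nth_rewrite 2 [← e2]
  rw [← map_sub, hy, map_zsmul]

/-- The congruence subgroups have finite index. -/
theorem cong_fi {N : ℕ} (e : Basis (Fin N) ℤ O) (m : ℕ) (hm : m ≠ 0) :
    (cong O m).FiniteIndex := by
  classical
  have : NeZero m := ⟨hm⟩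
  -- the coordinates modulo `m`
  let f : (O ≃+* O) → (Fin N → Fin N → ZMod m) := fun g i j => ((e.repr (g (e j)) i : ℤ) : ZMod m)
  have hf : ∀ g h : O ≃+* O, f g = f h → g⁻¹ * h ∈ cong O m := by
    intro g h hgh
    have h1 : ∀ j, ∃ y : O, h (e j) - g (e j) = (m : ℤ) • y := by
      intro j
      have h2 : ∀ i, (m : ℤ) ∣ e.repr (h (e j)) i - e.repr (g (e j)) i := by
        intro i
        have h3 : ((e.repr (g (e j)) i : ℤ) : ZMod m) = ((e.repr (h (e j)) i : ℤ) : ZMod m) :=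
          congrFun (congrFun hgh i) j
        exact (ZMod.intCast_eq_intCast_iff_dvd_sub _ _ m).mp h3
      choose c hc using h2
      refine ⟨∑ i, c i • e i, ?_⟩
      apply e.repr.injective
      ext i
      rw [map_sub, Finsupp.sub_apply, hc i, map_smul, map_sum, Finsupp.smul_apply,
        Finsupp.finsetSum_apply, smul_eq_mul]
      congr 1
      rw [Finset.sum_eq_single i]
      · rw [map_smul, e.repr_self, Finsupp.smul_apply, Finsupp.single_eq_same, smul_eq_mul, mul_one]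
      · intro k _ hk
        rw [map_smul, e.repr_self, Finsupp.smul_apply, Finsupp.single_eq_of_ne hk.symm, smul_zero]
      · intro hi
        exact absurd (Finset.mem_univ i) hi
    choose z hz using h1
    have h2 : ∀ x : O, ∃ y : O, h x - g x = (m : ℤ) • y := by
      intro x
      refine ⟨∑ j, e.repr x j • z j, ?_⟩
      have h3 : ∀ u : O ≃+* O, u x = ∑ j, e.repr x j • u (e j) := by
        intro u
        conv_lhs => rw [← e.sum_repr x]
        rw [map_sum]
        exact Finset.sum_congr rfl fun j _ => map_zsmul u _ _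
      rw [h3 h, h3 g, ← Finset.sum_sub_distrib, Finset.smul_sum]
      refine Finset.sum_congr rfl fun j _ => ?_
      rw [← smul_sub, hz j, smul_comm]
    intro x
    obtain ⟨y, hy⟩ := h2 x
    refine ⟨g⁻¹ y, ?_⟩
    have e1 : (g⁻¹ * h) x = g⁻¹ (h x) := rfl
    have e2 : g⁻¹ (g x) = x := g.symm_apply_apply x
    rw [e1]
    nth_rewrite 2 [← e2]
    rw [← map_sub, hy, map_zsmul]
  have : Finite ((O ≃+* O) ⧸ cong O m) := by
    let F : ((O ≃+* O) ⧸ cong O m) → (Fin N → Fin N → ZMod m) := fun q => f q.out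
    have hF : Function.Injective F := by
      intro q r hqr
      have h1 := hf q.out r.out hqr
      have h2 : (QuotientGroup.mk q.out : (O ≃+* O) ⧸ cong O m) = QuotientGroup.mk r.out :=
        QuotientGroup.eq.mpr h1
      rwa [QuotientGroup.out_eq', QuotientGroup.out_eq'] at h2
    exact Finite.of_injective F hF
  exact Subgroup.finiteIndex_of_finite_quotient

/-- Divisibility is bounded. -/
theorem dvd_all {N : ℕ} (e : Basis (Fin N) ℤ O) (p : ℕ) (hp : 1 < p) (x : O)
    (h : ∀ k : ℕ, ∃ y : O, x = ((p : ℤ) ^ k) • y) : x = 0 := by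
  apply e.repr.injective
  ext i
  rw [map_zero, Finsupp.zero_apply]
  by_contra hne
  have h1 : ∀ k : ℕ, (p : ℤ) ^ k ∣ e.repr x i := by
    intro k
    obtain ⟨y, hy⟩ := h k
    rw [hy, map_smul, Finsupp.smul_apply, smul_eq_mul]
    exact Dvd.intro _ rfl
  have h2 := h1 (e.repr x i).natAbs
  have h3 : p ^ (e.repr x i).natAbs ∣ (e.repr x i).natAbs := by
    have := Int.natAbs_dvd_natAbs.mpr h2
    rwa [Int.natAbs_pow, Int.natAbs_natCast] at this
  have h4 := Nat.le_of_dvd (Int.natAbs_pos.mpr hne) h3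
  exact absurd (Nat.lt_pow_self hp) (not_lt.mpr h4)

/-- The beginning of the binomial formula. -/
theorem bin {R : Type*} [Ring R] (a : R) (n : ℕ) :
    ∃ r : R, (1 + a) ^ n = 1 + (n : ℤ) • a + ((n.choose 2 : ℕ) : ℤ) • a ^ 2 + a ^ 3 * r := by
  induction n with
  | zero => exact ⟨0, by simp⟩
  | succ n ih =>
    obtain ⟨r, hr⟩ := ih
    refine ⟨r * (1 + a) + ((n.choose 2 : ℕ) : R), ?_⟩
    have h1 : ((n + 1).choose 2 : ℕ) = n + n.choose 2 := by
      rw [Nat.choose_succ_succ' n 1, Nat.choose_one_right]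
    have e1 : a ^ 3 * ((n.choose 2 : ℕ) : R) = ((n.choose 2 : ℕ) : R) * a ^ 3 :=
      (Nat.cast_commute _ _).symm.eq
    rw [pow_succ, hr, h1, mul_add (a ^ 3), e1]
    simp only [zsmul_eq_mul]
    push_cast
    noncomm_ring

/-- The step: if `g = 1` modulo `p ^ k` with `p` an odd prime, `1 ≤ k`, and `g ^ q = 1`, `q` prime, then
`g = 1` modulo `p ^ (k + 1)`. -/
theorem step {N : ℕ} (e : Basis (Fin N) ℤ O) (p : ℕ) (hp : p.Prime) (hp2 : p ≠ 2) (q : ℕ)
    (hq : q.Prime) (k : ℕ) (hk : 1 ≤ k) (T : Module.End ℤ O) (hT : T ^ q = 1)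
    (X : Module.End ℤ O) (hX : T = 1 + ((p : ℤ) ^ k) • X) :
    ∃ X' : Module.End ℤ O, T = 1 + ((p : ℤ) ^ (k + 1)) • X' := by
  have : Module.Free ℤ O := Module.Free.of_basis e
  have : Module.Finite ℤ O := Module.Finite.of_basis e
  have hcan : ∀ (c : ℤ) (U V : Module.End ℤ O), c ≠ 0 → c • U = c • V → U = V := by
    intro c U V hc h
    ext x
    have h1 : c • (U x) = c • (V x) := by
      have := congrArg (fun W : Module.End ℤ O => W x) h
      simpa using this
    exact smul_right_injective O hc h1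
  obtain ⟨r, hr⟩ := bin (((p : ℤ) ^ k) • X) q
  have hp0 : (p : ℤ) ≠ 0 := Int.natCast_ne_zero.mpr hp.ne_zero
  rw [← hX, hT] at hr
  by_cases hqp : q = p
  · -- `q = p`
    subst hqp
    obtain ⟨k, rfl⟩ := Nat.exists_eq_add_of_le hk
    obtain ⟨m, hm⟩ : ∃ m : ℕ, q.choose 2 = q * m := by
      rw [Nat.choose_two_right]
      obtain ⟨m, hm⟩ := hq.eq_two_or_odd'.resolve_left hp2
      refine ⟨m, ?_⟩
      have : q * (q - 1) = (q * m) * 2 := by
        have : q - 1 = 2 * m := by omega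
        rw [this]; ring
      rw [this, Nat.mul_div_cancel _ (by norm_num)]
    rw [hm] at hr
    have h1 : ((q : ℤ) ^ (1 + k + 1)) • X = ((q : ℤ) ^ (1 + k + 1)) •
        (-(((q : ℤ) ^ (1 + k) * m) • X ^ 2) - ((q : ℤ) ^ (2 * k + 1)) • (X ^ 3 * r)) := by
      have h2 : (q : ℤ) • ((q : ℤ) ^ (1 + k) • X) = -(((q * m : ℕ) : ℤ) •
          ((q : ℤ) ^ (1 + k) • X) ^ 2) - ((q : ℤ) ^ (1 + k) • X) ^ 3 * r := by
        have h3 := hr
        have h4 : (q : ℤ) • ((q : ℤ) ^ (1 + k) • X) + ((q * m : ℕ) : ℤ) •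
          ((q : ℤ) ^ (1 + k) • X) ^ 2 + ((q : ℤ) ^ (1 + k) • X) ^ 3 * r = 0 := by
          have h5 : (1 : Module.End ℤ O) + ((q : ℤ) • ((q : ℤ) ^ (1 + k) • X) +
            ((q * m : ℕ) : ℤ) • ((q : ℤ) ^ (1 + k) • X) ^ 2 +
            ((q : ℤ) ^ (1 + k) • X) ^ 3 * r) = 1 + 0 := by
            rw [add_zero]
            nth_rewrite 2 [h3]
            abel
          exact add_left_cancel h5
        rw [sub_eq_add_neg, ← neg_add, eq_neg_iff_add_eq_zero, ← add_assoc]
        exact h4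
      rw [smul_sub, smul_neg, smul_smul, smul_smul]
      rw [smul_smul] at h2
      have e1 : (q : ℤ) ^ (1 + k + 1) = (q : ℤ) * (q : ℤ) ^ (1 + k) := by ring
      rw [e1, h2]
      congr 1
      · congr 1
        rw [smul_pow, smul_smul]
        congr 1
        push_cast
        ring
      · rw [smul_pow, smul_mul_assoc]
        congr 1
        ring
    have h2 := hcan _ _ _ (pow_ne_zero _ hp0) h1
    refine ⟨-(((q : ℤ) ^ k * m) • X ^ 2) - ((q : ℤ) ^ (2 * k)) • (X ^ 3 * r), ?_⟩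
    have h3 : X = (q : ℤ) • (-(((q : ℤ) ^ k * m) • X ^ 2) - ((q : ℤ) ^ (2 * k)) • (X ^ 3 * r)) := by
      nth_rewrite 1 [h2]
      rw [smul_sub, smul_neg, smul_smul, smul_smul]
      congr 1
      · congr 2
        ring
      · congr 1
        ring
    rw [hX]
    nth_rewrite 1 [h3]
    rw [smul_smul]
    congr 2
  · -- `q ≠ p`
    have hcop : IsCoprime (q : ℤ) (p : ℤ) :=
      Nat.isCoprime_iff_coprime.mpr ((Nat.coprime_primes hq hp).mpr hqp)
    obtain ⟨u, v, huv⟩ := hcop
    obtain ⟨k, rfl⟩ := Nat.exists_eq_add_of_le hk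
    have h1 : ((p : ℤ) ^ (1 + k)) • ((q : ℤ) • X) = ((p : ℤ) ^ (1 + k)) •
        ((p : ℤ) ^ (1 + k) • (-(((q.choose 2 : ℕ) : ℤ) • X ^ 2) -
          ((p : ℤ) ^ (1 + k)) • (X ^ 3 * r))) := by
      have h4 : (q : ℤ) • ((p : ℤ) ^ (1 + k) • X) + ((q.choose 2 : ℕ) : ℤ) •
        ((p : ℤ) ^ (1 + k) • X) ^ 2 + ((p : ℤ) ^ (1 + k) • X) ^ 3 * r = 0 := by
        have h5 : (1 : Module.End ℤ O) + ((q : ℤ) • ((p : ℤ) ^ (1 + k) • X) +
          ((q.choose 2 : ℕ) : ℤ) • ((p : ℤ) ^ (1 + k) • X) ^ 2 +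
          ((p : ℤ) ^ (1 + k) • X) ^ 3 * r) = 1 + 0 := by
          rw [add_zero]
          nth_rewrite 2 [hr]
          abel
        exact add_left_cancel h5
      have h2 : (q : ℤ) • ((p : ℤ) ^ (1 + k) • X) = -(((q.choose 2 : ℕ) : ℤ) •
          ((p : ℤ) ^ (1 + k) • X) ^ 2) - ((p : ℤ) ^ (1 + k) • X) ^ 3 * r := by
        rw [sub_eq_add_neg, ← neg_add, eq_neg_iff_add_eq_zero, ← add_assoc]
        exact h4
      rw [smul_comm, h2, smul_sub, smul_sub, smul_neg, smul_neg, smul_smul, smul_smul, smul_smul,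
        smul_smul]
      congr 1
      · congr 1
        rw [smul_pow, smul_smul]
        congr 1
        ring
      · rw [smul_pow, smul_mul_assoc]
        congr 1
        ring
    have h2 := hcan _ _ _ (pow_ne_zero _ hp0) h1
    refine ⟨u • ((p : ℤ) ^ k • (-(((q.choose 2 : ℕ) : ℤ) • X ^ 2) -
          ((p : ℤ) ^ (1 + k)) • (X ^ 3 * r))) + v • X, ?_⟩
    have h3 : X = (p : ℤ) • (u • ((p : ℤ) ^ k • (-(((q.choose 2 : ℕ) : ℤ) • X ^ 2) -
          ((p : ℤ) ^ (1 + k)) • (X ^ 3 * r))) + v • X) := by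
      calc X = (u * q + v * p) • X := by rw [huv, one_smul]
        _ = u • ((q : ℤ) • X) + (v * p) • X := by rw [add_smul, mul_smul]
        _ = _ := by
          rw [h2, smul_add, smul_smul, smul_smul, smul_smul, smul_smul]
          congr 2
          · ring
          · ring
    rw [hX]
    nth_rewrite 1 [h3]
    rw [smul_smul]
    congr 2

/-- An automorphism of prime order in the congruence subgroup is trivial. -/
theorem cong_prime {N : ℕ} (e : Basis (Fin N) ℤ O) (m : ℕ) (hm : 3 ∣ m) (g : O ≃+* O)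
    (hg : g ∈ cong O m) (q : ℕ) (hq : q.Prime) (h : g ^ q = 1) : g = 1 := by
  let T : Module.End ℤ O := g.toAddMonoidHom.toIntLinearMap
  have hTg : ∀ x, T x = g x := fun x => rfl
  have hTp : ∀ (n : ℕ) x, (T ^ n) x = (g ^ n) x := by
    intro n
    induction n with
    | zero => intro x; rfl
    | succ n ih =>
      intro x
      rw [pow_succ, Module.End.mul_apply, hTg, ih, pow_succ]
      rfl
  have hT : T ^ q = 1 := by
    ext x
    rw [hTp, h]
    rfl
  have h1 : ∀ k : ℕ, ∃ X : Module.End ℤ O, T = 1 + (((3 : ℕ) : ℤ) ^ (k + 1)) • X := by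
    intro k
    induction k with
    | zero =>
      obtain ⟨l, rfl⟩ := hm
      have h2 : ∀ j, ∃ y : O, g (e j) - e j = ((3 * l : ℕ) : ℤ) • y := fun j => hg (e j)
      choose y hy using h2
      refine ⟨(l : ℤ) • e.constr ℤ y, ?_⟩
      apply e.ext
      intro j
      rw [LinearMap.add_apply, LinearMap.smul_apply, LinearMap.smul_apply, e.constr_basis, hTg,
        smul_smul, Module.End.one_apply, zero_add, pow_one, ← Nat.cast_mul, ← hy j]
      abel
    | succ k ih =>
      obtain ⟨X, hX⟩ := ih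
      exact step e 3 Nat.prime_three (by norm_num) q hq (k + 1) (by omega) T hT X hX
  ext x
  have h2 : g x - x = 0 := by
    refine dvd_all e 3 (by norm_num) _ fun k => ?_
    obtain ⟨X, hX⟩ := h1 k
    refine ⟨((3 : ℕ) : ℤ) • X x, ?_⟩
    have h3 : g x = x + (((3 : ℕ) : ℤ) ^ (k + 1)) • X x := by
      rw [← hTg, hX]
      rfl
    rw [h3, smul_smul, pow_succ]
    abel
  exact sub_eq_zero.mp h2

/-- The congruence subgroup modulo a multiple of `3` is torsion free. -/
theorem cong_tf {N : ℕ} (e : Basis (Fin N) ℤ O) (m : ℕ) (hm : 3 ∣ m) (g : O ≃+* O)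
    (hg : g ∈ cong O m) (n : ℕ) (hn : 0 < n) (h : g ^ n = 1) : g = 1 := by
  induction n using Nat.strong_induction_on generalizing g with
  | _ n ih =>
    by_cases h1 : n = 1
    · rw [h1, pow_one] at h
      exact h
    · obtain ⟨q, hq, k, rfl⟩ := Nat.exists_prime_and_dvd h1
      have hk : 0 < k := Nat.pos_of_mul_pos_left hn
      rw [pow_mul] at h
      have h2 : g ^ q = 1 := by
        refine ih k ?_ (g ^ q) ((cong O m).pow_mem hg q) hk h
        nlinarith [hq.two_le]
      exact cong_prime e m hm g hg q hq h2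

end Pool.Agent.ZX
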