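import Pool.Agent.Lib.MP_8f66f0_al_ZX.ChartH
import Pool.Agent.Lib.MP_8f66f0_al_ZX.Small
import Pool.Agent.Lib.MP_8f66f0_al_ZX.TF
import Pool.Agent.Lib.MP_8f66f0_al_ZR.Dict
import Pool.Agent.Lib.MP_8f66f0_al_ZR.Prp
import Pool.Agent.Lib.MP_8f66f0_al_ZR.Ubd

/-! Project ZERO, part X: the space of the positive involutions (statement `S_X`). -/

set_option autoImplicit false

namespace Pool.Agent.ZX

open Matrix Module Pool.Agent.ZR Pool.Agent.ZA Topology
open scoped Pointwise

variable {O : Type} [Ring O] {N : ℕ} (e : Basis (Fin N) ℤ O)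

/-- The form of an involution. -/
noncomputable def pm (σ : PI O) : YP e := ⟨⟨mx e σ, mx_posDef e σ⟩, mx_mem e σ⟩

theorem pm_bij : Function.Bijective (pm e) := by
  constructor
  · intro σ τ h
    exact mx_inj e (congrArg (fun B : YP e => B.1.1) h)
  · intro A
    obtain ⟨σ, h⟩ := mx_surj e A.2
    exact ⟨σ, Subtype.ext (Subtype.ext h)⟩

/-- The involutions and their forms. -/
noncomputable def kap : PI O ≃ YP e := Equiv.ofBijective (pm e) (pm_bij e)

theorem kap_val (σ : PI O) : (kap e σ).1.1 = mx e σ := rfl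

/-- The metric of the space of the positive involutions. -/
noncomputable abbrev mPI : MetricSpace (PI O) :=
  MetricSpace.induced (kap e) (kap e).injective inferInstance

/-- The lines. -/
noncomputable def lnY (A B : YP e) (t : ℝ) : YP e := ⟨PD.ln A.1 B.1 t, yo_gm e A.2 B.2 t⟩

/-- The lines. -/
noncomputable def lnP (σ τ : PI O) (t : ℝ) : PI O := (kap e).symm (lnY e (kap e σ) (kap e τ) t)

theorem kap_ln (σ τ : PI O) (t : ℝ) : kap e (lnP e σ τ t) = lnY e (kap e σ) (kap e τ) t :=
  (kap e).apply_symm_apply _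

theorem mx_ln (σ τ : PI O) (t : ℝ) : mx e (lnP e σ τ t) = gm (mx e σ) (mx e τ) t :=
  congrArg (fun B : YP e => B.1.1) (kap_ln e σ τ t)

/-- The matrix of the action. -/
theorem act_eq (g : O ≃+* O) (A : Matrix (Fin N) (Fin N) ℝ) :
    act e g A = (mt e g⁻¹)ᵀ * A * ((mt e g⁻¹)ᵀ)ᵀ := by
  unfold act
  rw [transpose_transpose]

theorem mt_unit (g : O ≃+* O) : IsUnit ((mt e g⁻¹)ᵀ).det := by
  rw [det_transpose]
  have h1 : mt e g⁻¹ * mt e g = 1 := by rw [← mt_mul, inv_mul_cancel, mt_one]
  have h2 := congrArg Matrix.det h1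
  rw [det_mul, det_one] at h2
  exact IsUnit.of_mul_eq_one _ h2

/-- The powers are a one-parameter group. -/
theorem pw_add {A B : Matrix (Fin N) (Fin N) ℝ} (hA : A.PosDef) (hB : B.PosDef) (s t : ℝ) :
    pw A B (s + t) = pw A B s * pw A B t := by
  obtain ⟨g, d, h1, h2, rfl, rfl⟩ := simd' hA hB
  rw [pw_fr h1 h2, pw_fr h1 h2, pw_fr h1 h2]
  have h3 : diagonal (fun i => d i ^ (s + t)) =
      diagonal (fun i => d i ^ s) * diagonal (fun i => d i ^ t) := by
    rw [diagonal_mul_diagonal]
    congr 1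
    funext i
    exact Real.rpow_add (h2 i) s t
  rw [h3]
  calc (gᵀ)⁻¹ * (diagonal (fun i => d i ^ s) * diagonal (fun i => d i ^ t)) * gᵀ
      = (gᵀ)⁻¹ * diagonal (fun i => d i ^ s) * 1 * diagonal (fun i => d i ^ t) * gᵀ := by
        rw [Matrix.mul_one]
        simp only [Matrix.mul_assoc]
    _ = (gᵀ)⁻¹ * diagonal (fun i => d i ^ s) * (gᵀ * (gᵀ)⁻¹) * diagonal (fun i => d i ^ t) *
        gᵀ := by rw [mul_nonsing_inv _ (detT h1)]
    _ = _ := by simp only [Matrix.mul_assoc]

/-- The composition of the involutions. -/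
theorem sm_mul_sm (σ τ : PI O) (t : ℝ) :
    sm e σ * sm e (lnP e σ τ t) = pw (mx e σ) (mx e τ) t := by
  have hT : IsUnit (Tm e).det := Tm_unit e (mx_mem e σ)
  have h1 : mx e σ * sm e σ = Tm e := by
    unfold mx
    rw [Matrix.mul_assoc, sm_sq, Matrix.mul_one]
  have h2 := inv_mul_yo e (mx_posDef e σ) h1 (B := mx e (lnP e σ τ t)) (U := sm e (lnP e σ τ t))
    rfl
  rw [← h2, mx_ln]
  rfl

include e in
/-- The space of the positive involutions. -/
theorem geo (σ₀ : PI O) : ∃ _ : MetricSpace (PI O), IsTh O ∧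
    ∃ Γ : Geo (RingAut O) (PI O), OneP Γ := by
  let _ : MetricSpace (PI O) := mPI e
  have hd : ∀ σ τ : PI O, dist σ τ = td (mx e σ) (mx e τ) := fun σ τ => rfl
  have hk : ∀ σ τ : PI O, dist σ τ = dist (kap e σ).1 (kap e τ).1 := fun σ τ => rfl
  have hi : Isometry (kap e) := Isometry.of_dist_eq fun σ τ => rfl
  let κ : PI O ≃ᵢ YP e := IsometryEquiv.mk (kap e) hi
  have hκ : ∀ σ, κ σ = kap e σ := fun σ => rfl
  have hmx : Continuous (fun σ : PI O => (mx e σ : Matrix (Fin N) (Fin N) ℝ)) :=
    PD.en_continuous.comp (continuous_subtype_val.comp hi.continuous)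
  refine ⟨inferInstance, ?_, ?_⟩
  · intro σ τ r hr
    rw [hd, td_le_iff (mx_posDef e σ) (mx_posDef e τ), and_iff_right hr, nr_iff_qf]
    constructor
    · intro h x
      rw [q_eq e, q_eq e]
      exact ⟨(h _).2, (h _).1⟩
    · intro h v
      have h1 := h ((ce e).symm v)
      rw [q_eq e, q_eq e, LinearEquiv.apply_symm_apply] at h1
      exact ⟨h1.2, h1.1⟩
  · refine ⟨{ ln := lnP e
              ln0 := ?_
              ln1 := ?_
              lnln := ?_
              dln := ?_
              cvx := ?_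
              gdist := ?_
              gln := ?_
              cpt := ?_
              act := ?_
              G' := cong O 6
              nrm := cong_normal 6
              fin := cong_fi e 6 (by norm_num)
              tf := fun g hg n hn h => cong_tf e 6 (by norm_num) g hg n hn h
              dim := ?_
              lip := ?_
              D := _
              x₀ := σ₀
              chart := κ.toHomeomorph.trans (ch e (kap e σ₀))
              chart_ln := ?_ }, ?_⟩
    · intro x y
      apply (kap e).injective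
      rw [kap_ln]
      exact Subtype.ext (PD.ln0 _ _)
    · intro x y
      apply (kap e).injective
      rw [kap_ln]
      exact Subtype.ext (PD.ln1 _ _)
    · intro x y s t r
      apply (kap e).injective
      rw [kap_ln, kap_ln, kap_ln, kap_ln]
      exact Subtype.ext (PD.lnln _ _ s t r)
    · intro x y s t
      rw [hk, kap_ln, kap_ln, hk]
      exact PD.dln _ _ s t
    · intro x y x' y' s h0 h1
      rw [hk, kap_ln, kap_ln, hk, hk]
      exact PD.cvx _ _ _ _ s h0 h1
    · intro g x y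
      rw [hd, hd, mx_smul, mx_smul, act_eq, act_eq, td_cong (mt_unit e g)]
    · intro g x y t
      apply mx_inj e
      rw [mx_smul, mx_ln, mx_ln, mx_smul, mx_smul, act_eq, act_eq, act_eq,
        gm_cong (mx_posDef e x) (mx_posDef e y) (mt_unit e g)]
    · intro x r
      have h1 : Metric.closedBall x r = κ ⁻¹' Metric.closedBall (κ x) r := by
        rw [IsometryEquiv.preimage_closedBall, IsometryEquiv.symm_apply_apply]
      rw [h1]
      exact κ.toHomeomorph.isCompact_preimage.2 (cpt_sub (YP_closed e) (κ x) r)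
    · intro K hK
      have h1 := (tPrp tUbd) N O e ((fun σ : PI O => mx e σ) '' K) (hK.image hmx)
        (by rintro _ ⟨σ, -, rfl⟩; exact mx_posDef e σ)
      refine h1.subset ?_
      rintro g ⟨τ, ⟨σ, hσ, hστ⟩, hτ⟩
      refine ⟨mx e σ, ⟨σ, hσ, rfl⟩, ⟨τ, hτ, ?_⟩⟩
      rw [← mx_smul]
      change mx e τ = mx e (g • σ)
      rw [← hστ]
    · obtain ⟨D, hD⟩ := dim_sub (YP e)
      refine ⟨D, ?_⟩
      have h1 : Isometry (fun p : PI O × PI O => (kap e p.1, kap e p.2)) := hi.prodMap hi
      rw [← h1.dimH_image]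
      exact (dimH_mono (Set.subset_univ _)).trans hD
    · intro T _
      obtain ⟨C, δ, h1, h2, h3⟩ := PD.lip (n := Fin N) T
      refine ⟨C, δ, h1, h2, fun x y x' y' k1 k2 k3 k4 t ht => ?_⟩
      rw [hk] at k1 k2 k3 k4 ⊢
      rw [kap_ln, kap_ln, hk x x', hk y y']
      exact h3 _ _ _ _ k1 k2 k3 k4 t ht
    · intro z s
      change ch e (kap e σ₀) (kap e (lnP e σ₀ z s)) = s • ch e (kap e σ₀) (kap e z)
      refine ch_smul e (kap e σ₀) ?_
      rw [kap_ln]
      rfl
    · intro σ τ s t x
      apply (ce e).injective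
      have h1 : ∀ (τ' : PI O) (x : VO O), ce e (σ.s (τ'.s x)) = (sm e σ * sm e τ') *ᵥ ce e x := by
        intro τ' x
        rw [← sm_ce, ← sm_ce, mulVec_mulVec]
      change ce e (σ.s ((lnP e σ τ (s + t)).s x)) =
        ce e (σ.s ((lnP e σ τ s).s (σ.s ((lnP e σ τ t).s x))))
      rw [h1, h1, h1, sm_mul_sm, sm_mul_sm, sm_mul_sm,
        pw_add (mx_posDef e σ) (mx_posDef e τ), mulVec_mulVec]

/-- **Part X.** -/
theorem tX : S_X := by
  intro O _ _ _ h
  obtain ⟨σ₀⟩ := h
  exact geo (Module.finBasis ℤ O) σ₀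

end Pool.Agent.ZX
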