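import Pool.Agent.Lib.MP_8f66f0_al_ZX.YOs

/-! Project ZERO, part X: the exponential map `X ↦ A exp X` from the derivations which are
self-adjoint for `A` to the forms of the positive involutions. -/

set_option autoImplicit false

namespace Pool.Agent.ZX

open Matrix Module Pool.Agent.ZR

section General

variable {n : Type} [Fintype n] [DecidableEq n]

/-- `(gᵀ)⁻¹ diag(d) gᵀ`. -/
noncomputable def cj (g : Matrix n n ℝ) (d : n → ℝ) : Matrix n n ℝ := (gᵀ)⁻¹ * diagonal d * gᵀ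

theorem ggt_cj {g : Matrix n n ℝ} (hg : IsUnit g.det) (d : n → ℝ) :
    g * gᵀ * cj g d = fr g d := by
  unfold cj fr
  calc g * gᵀ * ((gᵀ)⁻¹ * diagonal d * gᵀ) = g * (gᵀ * (gᵀ)⁻¹) * diagonal d * gᵀ := by
        simp only [Matrix.mul_assoc]
    _ = _ := by rw [mul_nonsing_inv _ (detT hg), Matrix.mul_one]

theorem ggt_inv {g : Matrix n n ℝ} (hg : IsUnit g.det) (d : n → ℝ) :
    (g * gᵀ)⁻¹ * fr g d = cj g d := by
  have h1 : IsUnit (g * gᵀ).det := by
    rw [det_mul]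
    exact hg.mul (detT hg)
  rw [← ggt_cj hg d, ← Matrix.mul_assoc, nonsing_inv_mul _ h1, Matrix.one_mul]

theorem cj_eig {g : Matrix n n ℝ} (hg : IsUnit g.det) {d : n → ℝ} {v : n → ℝ} {c : ℝ}
    (h : cj g d *ᵥ v = c • v) (f : ℝ → ℝ) : cj g (fun i => f (d i)) *ᵥ v = f c • v := by
  have h3 : ∀ (f : n → ℝ), gᵀ *ᵥ (cj g f *ᵥ v) = diagonal f *ᵥ (gᵀ *ᵥ v) := by
    intro f
    unfold cj
    rw [mulVec_mulVec, Matrix.mul_assoc, ← Matrix.mul_assoc gᵀ, mul_nonsing_inv _ (detT hg),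
      Matrix.one_mul, ← mulVec_mulVec]
  have h4 : ∀ i, d i * (gᵀ *ᵥ v) i = c * (gᵀ *ᵥ v) i := by
    intro i
    have h5 := h3 d
    rw [h, mulVec_smul] at h5
    have h6 := congrFun h5 i
    rw [mulVec_diagonal, Pi.smul_apply, smul_eq_mul] at h6
    exact h6.symm
  have h5 : gᵀ *ᵥ (cj g (fun i => f (d i)) *ᵥ v) = gᵀ *ᵥ (f c • v) := by
    rw [h3, mulVec_smul]
    funext i
    rw [mulVec_diagonal, Pi.smul_apply, smul_eq_mul]
    by_cases hz : (gᵀ *ᵥ v) i = 0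
    · rw [hz, mul_zero, mul_zero]
    · rw [mul_right_cancel₀ hz (h4 i)]
  have h6 := congrArg (fun w => (gᵀ)⁻¹ *ᵥ w) h5
  simp only [mulVec_mulVec] at h6
  rw [← Matrix.mul_assoc, nonsing_inv_mul _ (detT hg), Matrix.one_mul, one_mulVec] at h6
  exact h6

/-- Equality of linear maps can be checked on the eigenvectors. -/
theorem cj_ext {g : Matrix n n ℝ} (hg : IsUnit g.det) {d : n → ℝ} {E : Type*}
    [AddCommGroup E] [Module ℝ E] {f f' : (n → ℝ) →ₗ[ℝ] E}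
    (h : ∀ (v : n → ℝ) (c : ℝ), cj g d *ᵥ v = c • v → f v = f' v) : f = f' := by
  have h4 : ∀ i, f ((gᵀ)⁻¹ *ᵥ Pi.single i 1) = f' ((gᵀ)⁻¹ *ᵥ Pi.single i 1) := by
    intro i
    refine h _ (d i) ?_
    unfold cj
    rw [mulVec_mulVec, Matrix.mul_assoc, mul_nonsing_inv _ (detT hg), Matrix.mul_one,
      ← mulVec_mulVec, ← mulVec_smul]
    congr 1
    funext j
    rw [mulVec_diagonal, Pi.smul_apply, smul_eq_mul]
    by_cases hij : j = i
    · rw [hij]
    · rw [Pi.single_eq_of_ne hij, mul_zero, mul_zero]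
  have h5 : f ∘ₗ Matrix.mulVecLin (gᵀ)⁻¹ = f' ∘ₗ Matrix.mulVecLin (gᵀ)⁻¹ := by
    refine LinearMap.pi_ext' fun i => LinearMap.ext_ring ?_
    exact h4 i
  refine LinearMap.ext fun v => ?_
  have h6 := congrArg (fun F : (n → ℝ) →ₗ[ℝ] E => F (gᵀ *ᵥ v)) h5
  have h7 : (gᵀ)⁻¹ *ᵥ (gᵀ *ᵥ v) = v := by
    rw [mulVec_mulVec, nonsing_inv_mul _ (detT hg), one_mulVec]
  simpa only [LinearMap.comp_apply, Matrix.mulVecLin_apply, h7] using h6

/-- A self-adjoint matrix in a frame. -/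
theorem selfadj {A X : Matrix n n ℝ} (hA : A.PosDef) (hX : Xᵀ * A = A * X) :
    ∃ (g : Matrix n n ℝ) (d : n → ℝ), IsUnit g.det ∧ A = g * gᵀ ∧ X = cj g d := by
  have h1 : (A * X)ᵀ = A * X := by
    rw [transpose_mul, isHermitian_iff.1 hA.1, hX]
  obtain ⟨g, d, h2, h3, h4⟩ := simd hA h1
  refine ⟨g, d, h2, h3, ?_⟩
  rw [← ggt_inv h2, ← h3, ← h4, ← Matrix.mul_assoc, nonsing_inv_mul _ (isUnit_det hA),
    Matrix.one_mul]

/-- The exponential. -/
theorem exp_cj {g : Matrix n n ℝ} (hg : IsUnit g.det) (d : n → ℝ) :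
    NormedSpace.exp (cj g d) = cj g (fun i => Real.exp (d i)) := by
  have h1 : IsUnit ((gᵀ)⁻¹) := by
    rw [Matrix.isUnit_iff_isUnit_det, det_nonsing_inv]
    exact (detT hg).ringInverse
  have h2 : ((gᵀ)⁻¹)⁻¹ = gᵀ := nonsing_inv_nonsing_inv _ (detT hg)
  unfold cj
  have h3 := Matrix.exp_conj (𝔸 := ℝ) (gᵀ)⁻¹ (diagonal d) h1
  rw [h2] at h3
  rw [h3, Matrix.exp_diagonal]
  congr 3
  funext i
  rw [Pi.coe_exp, ← Real.exp_eq_exp_ℝ]

/-- The exponential map with the base point `A`. -/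
noncomputable def ex (A X : Matrix n n ℝ) : Matrix n n ℝ := A * NormedSpace.exp X

theorem ex_cj {g : Matrix n n ℝ} (hg : IsUnit g.det) (d : n → ℝ) :
    ex (g * gᵀ) (cj g d) = fr g (fun i => Real.exp (d i)) := by
  unfold ex
  rw [exp_cj hg, ggt_cj hg]

theorem ex_posDef {A X : Matrix n n ℝ} (hA : A.PosDef) (hX : Xᵀ * A = A * X) :
    (ex A X).PosDef := by
  obtain ⟨g, d, h1, rfl, rfl⟩ := selfadj hA hX
  rw [ex_cj h1]
  exact posDef_fr h1 fun i => Real.exp_pos _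

/-- The lines. -/
theorem ex_smul {A X : Matrix n n ℝ} (hA : A.PosDef) (hX : Xᵀ * A = A * X) (s : ℝ) :
    ex A (s • X) = gm A (ex A X) s := by
  obtain ⟨g, d, h1, rfl, rfl⟩ := selfadj hA hX
  have h2 : s • cj g d = cj g (fun i => s * d i) := by
    unfold cj
    have h3 : diagonal (fun i => s * d i) = s • diagonal d := by
      rw [← diagonal_smul]
      rfl
    rw [h3, Matrix.mul_smul, Matrix.smul_mul]
  rw [h2, ex_cj h1, ex_cj h1, gm_fr1 h1 (fun i => Real.exp_pos _)]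
  congr 1
  funext i
  rw [← Real.exp_mul, mul_comm]

/-- The logarithm with the base point `A`. -/
theorem ex_surj {A B : Matrix n n ℝ} (hA : A.PosDef) (hB : B.PosDef) :
    ∃ X : Matrix n n ℝ, Xᵀ * A = A * X ∧ ex A X = B ∧
      ∀ (v : n → ℝ) (c : ℝ), 0 < c → (A⁻¹ * B) *ᵥ v = c • v → X *ᵥ v = Real.log c • v := by
  obtain ⟨g, d, h1, h2, h3⟩ := simd hA (isHermitian_iff.1 hB.1)
  have hd : ∀ i, 0 < d i := pos_of_posDef h1 (h3 ▸ hB)
  refine ⟨cj g (fun i => Real.log (d i)), ?_, ?_, ?_⟩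
  · have h4 : (cj g fun i => Real.log (d i))ᵀ * A = (A * cj g fun i => Real.log (d i))ᵀ := by
      rw [transpose_mul, isHermitian_iff.1 hA.1]
    rw [h4, h2, ggt_cj h1, fr_symm]
  · rw [h2, ex_cj h1, h3]
    congr 1
    funext i
    exact Real.exp_log (hd i)
  · intro v c hc hv
    rw [h2, h3, ggt_inv h1] at hv
    exact cj_eig h1 hv Real.log

/-- The eigenvectors of the exponential. -/
theorem ex_eig {A X : Matrix n n ℝ} (hA : A.PosDef) (hX : Xᵀ * A = A * X) {v : n → ℝ} {c : ℝ}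
    (h : X *ᵥ v = c • v) : (A⁻¹ * ex A X) *ᵥ v = Real.exp c • v := by
  obtain ⟨g, d, h1, rfl, rfl⟩ := selfadj hA hX
  rw [ex_cj h1, ggt_inv h1]
  exact cj_eig h1 h Real.exp

/-- The eigenvectors of the exponential are eigenvectors. -/
theorem ex_eig' {A X : Matrix n n ℝ} (hA : A.PosDef) (hX : Xᵀ * A = A * X) {v : n → ℝ} {c : ℝ}
    (h : (A⁻¹ * ex A X) *ᵥ v = c • v) : X *ᵥ v = Real.log c • v := by
  obtain ⟨g, d, h1, rfl, rfl⟩ := selfadj hA hX
  rw [ex_cj h1, ggt_inv h1] at h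
  have h2 := cj_eig h1 h Real.log
  simp only [Real.log_exp] at h2
  exact h2

theorem ex_inj {A X X' : Matrix n n ℝ} (hA : A.PosDef) (hX : Xᵀ * A = A * X)
    (hX' : X'ᵀ * A = A * X') (h : ex A X = ex A X') : X = X' := by
  have h1 : Matrix.mulVecLin X = Matrix.mulVecLin X' := by
    refine ext_eig hA (ex_posDef hA hX) fun v c _ hv => ?_
    rw [Matrix.mulVecLin_apply, Matrix.mulVecLin_apply, ex_eig' hA hX hv,
      ex_eig' hA hX' (h ▸ hv)]
  refine mat_ext fun v => ?_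
  exact congrArg (fun F : (n → ℝ) →ₗ[ℝ] (n → ℝ) => F v) h1

/-- Equality of linear maps can be checked on the eigenvectors of a self-adjoint matrix. -/
theorem sa_ext {A X : Matrix n n ℝ} (hA : A.PosDef) (hX : Xᵀ * A = A * X) {E : Type*}
    [AddCommGroup E] [Module ℝ E] {f f' : (n → ℝ) →ₗ[ℝ] E}
    (h : ∀ (v : n → ℝ) (c : ℝ), X *ᵥ v = c • v → f v = f' v) : f = f' := by
  obtain ⟨g, d, h1, rfl, rfl⟩ := selfadj hA hX
  exact cj_ext h1 h

end General

section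

variable {O : Type} [Ring O] {N : ℕ} (e : Basis (Fin N) ℤ O)

/-- Derivations of the real algebra. -/
def IsDer (X : Matrix (Fin N) (Fin N) ℝ) : Prop :=
  ∀ x y : Fin N → ℝ, X *ᵥ mR e x y = mR e (X *ᵥ x) y + mR e x (X *ᵥ y)

/-- The derivations which are self-adjoint for `A`. -/
def pp (A : Matrix (Fin N) (Fin N) ℝ) : Submodule ℝ (Matrix (Fin N) (Fin N) ℝ) where
  carrier := {X | Xᵀ * A = A * X ∧ IsDer e X}
  zero_mem' := by
    refine ⟨by rw [transpose_zero, Matrix.zero_mul, Matrix.mul_zero], fun x y => ?_⟩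
    rw [zero_mulVec, zero_mulVec, zero_mulVec, ← mB_apply, ← mB_apply, map_zero, map_zero,
      LinearMap.zero_apply, add_zero]
  add_mem' := by
    rintro X Y ⟨h1, h2⟩ ⟨k1, k2⟩
    refine ⟨by rw [transpose_add, Matrix.add_mul, Matrix.mul_add, h1, k1], fun x y => ?_⟩
    rw [add_mulVec, add_mulVec, add_mulVec, h2, k2]
    simp only [← mB_apply, map_add, LinearMap.add_apply]
    abel
  smul_mem' := by
    rintro c X ⟨h1, h2⟩
    refine ⟨by rw [transpose_smul, Matrix.smul_mul, Matrix.mul_smul, h1], fun x y => ?_⟩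
    rw [smul_mulVec, smul_mulVec, smul_mulVec, h2]
    simp only [← mB_apply, map_smul, LinearMap.smul_apply, smul_add]

theorem mem_pp {A X : Matrix (Fin N) (Fin N) ℝ} :
    X ∈ pp e A ↔ Xᵀ * A = A * X ∧ IsDer e X := Iff.rfl

/-- Derivations are skew for the trace form. -/
theorem der_skew {X : Matrix (Fin N) (Fin N) ℝ} (hX : IsDer e X) :
    Xᵀ * Tm e = -(Tm e * X) := by
  obtain ⟨L, h1, h2, h3, h4, h5, h6⟩ := tLmul N O e
  have h7 : ∀ x, L (X *ᵥ x) = X * L x - L x * X := by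
    intro x
    refine mat_ext fun y => ?_
    rw [sub_mulVec, ← mulVec_mulVec, ← mulVec_mulVec, h1, h1, h1, hX]
    abel
  have h8 : ∀ x y : Fin N → ℝ, x ⬝ᵥ ((Xᵀ * Tm e) *ᵥ y) = x ⬝ᵥ ((-(Tm e * X)) *ᵥ y) := by
    intro x y
    have h9 : x ⬝ᵥ ((Xᵀ * Tm e) *ᵥ y) = (X *ᵥ x) ⬝ᵥ (Tm e *ᵥ y) := by
      rw [← mulVec_mulVec, dotProduct_mulVec, vecMul_transpose]
    rw [h9, neg_mulVec, dotProduct_neg, ← mulVec_mulVec, h5, h5, h7, h7, Matrix.sub_mul,
      Matrix.mul_sub, trace_sub, trace_sub]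
    have h10 : (X * L x * L y).trace = (L x * (L y * X)).trace := by
      rw [Matrix.mul_assoc, Matrix.trace_mul_comm, Matrix.mul_assoc]
    have h11 : (L x * X * L y).trace = (L x * (X * L y)).trace := by rw [Matrix.mul_assoc]
    rw [h10, h11]
    ring
  ext i j
  have h9 := h8 (Pi.single i 1) (Pi.single j 1)
  simpa using h9

/-- The trace form is nondegenerate. -/
theorem Tm_unit {A : Matrix (Fin N) (Fin N) ℝ} (hA : A ∈ YO e) : IsUnit (Tm e).det := by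
  obtain ⟨h1, S, h2, h3, h4⟩ := hA
  have h5 := h1.det_pos
  rw [← h2, det_mul] at h5
  exact isUnit_iff_ne_zero.2 fun h0 => by
    rw [h0, zero_mul] at h5
    exact lt_irrefl _ h5

/-- The exponential map has values in `YO e`. -/
theorem ex_mem {A X : Matrix (Fin N) (Fin N) ℝ} (hA : A ∈ YO e) (hX : X ∈ pp e A) :
    ex A X ∈ YO e := by
  obtain ⟨hX1, hX2⟩ := hX
  have hB := ex_posDef hA.1 hX1
  obtain ⟨S, h1, h2, h3, h4⟩ := yo_inv e hA
  have hT := Tm_unit e hA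
  have h5 : IsAut e (A⁻¹ * ex A X) := by
    have h6 : (mB e).compr₂ (Matrix.mulVecLin (A⁻¹ * ex A X)) =
        (mB e).compl₁₂ (Matrix.mulVecLin (A⁻¹ * ex A X)) (Matrix.mulVecLin (A⁻¹ * ex A X)) := by
      refine sa_ext hA.1 hX1 fun x c hx => ?_
      refine sa_ext hA.1 hX1 fun y c' hy => ?_
      rw [LinearMap.compr₂_apply, LinearMap.compl₁₂_apply]
      simp only [Matrix.mulVecLin_apply, mB_apply]
      rw [ex_eig hA.1 hX1 hx, ex_eig hA.1 hX1 hy, mR_smul, ← Real.exp_add]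
      refine ex_eig hA.1 hX1 ?_
      rw [hX2 x y, hx, hy, add_smul]
      have h7 := mR_smul e c 1 x y
      have h8 := mR_smul e 1 c' x y
      rw [one_smul, mul_one] at h7
      rw [one_smul, one_mul] at h8
      rw [h7, h8]
    intro x y
    exact congrArg (fun F : (Fin N → ℝ) →ₗ[ℝ] (Fin N → ℝ) →ₗ[ℝ] (Fin N → ℝ) => F x y) h6
  have h6 : X * S = -(S * X) := by
    have h7 : Tm e * (X * S) = Tm e * (-(S * X)) := by
      have h8 := der_skew e hX2
      rw [Matrix.mul_neg, ← Matrix.mul_assoc, ← Matrix.mul_assoc, ← h2, ← hX1, h2,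
        ← Matrix.mul_assoc, h8, Matrix.neg_mul, neg_neg]
    have h8 := congrArg (fun M => (Tm e)⁻¹ * M) h7
    simp only [← Matrix.mul_assoc, nonsing_inv_mul _ hT, Matrix.one_mul] at h8
    exact h8
  have h7 : (A⁻¹ * ex A X) * S * (A⁻¹ * ex A X) = S := by
    have h8 : Matrix.mulVecLin ((A⁻¹ * ex A X) * S * (A⁻¹ * ex A X)) = Matrix.mulVecLin S := by
      refine sa_ext hA.1 hX1 fun v c hv => ?_
      have h9 : X *ᵥ (S *ᵥ v) = (-c) • (S *ᵥ v) := by
        rw [mulVec_mulVec, h6, neg_mulVec, ← mulVec_mulVec, hv, mulVec_smul, neg_smul]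
      rw [Matrix.mulVecLin_apply, Matrix.mulVecLin_apply, ← mulVec_mulVec, ex_eig hA.1 hX1 hv,
        mulVec_smul, ← mulVec_mulVec, ex_eig hA.1 hX1 h9, smul_smul, ← Real.exp_add,
        add_neg_cancel, Real.exp_zero, one_smul]
    refine mat_ext fun v => ?_
    exact congrArg (fun F : (Fin N → ℝ) →ₗ[ℝ] (Fin N → ℝ) => F v) h8
  refine ⟨hB, S * (A⁻¹ * ex A X), ?_, ?_, ?_⟩
  · rw [← Matrix.mul_assoc, ← h2, ← Matrix.mul_assoc, mul_nonsing_inv _ (isUnit_det hA.1),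
      Matrix.one_mul]
  · have h8 := pw_swap hA.1 hB h3 h7 1
    rwa [pw_one hA.1 hB] at h8
  · intro x y
    rw [← mulVec_mulVec, h5 x y, h4, mulVec_mulVec, mulVec_mulVec]

/-- The exponential map is surjective. -/
theorem ex_surj_yo {A B : Matrix (Fin N) (Fin N) ℝ} (hA : A ∈ YO e) (hB : B ∈ YO e) :
    ∃ X ∈ pp e A, ex A X = B := by
  obtain ⟨X, h1, h2, h3⟩ := ex_surj hA.1 hB.1
  refine ⟨X, ⟨h1, ?_⟩, h2⟩
  obtain ⟨S, k1, k2, k3, k4⟩ := yo_inv e hA
  obtain ⟨U, l1, l2, l3, l4⟩ := yo_inv e hB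
  have h5 : A⁻¹ * B = S * U := inv_mul_yo e hA.1 k1 l2
  have h6 : IsAut e (A⁻¹ * B) := by
    intro x y
    rw [h5, ← mulVec_mulVec, l4, k4, mulVec_mulVec, mulVec_mulVec]
  have h7 : (mB e).compr₂ (Matrix.mulVecLin X) =
      (mB e).compl₁₂ (Matrix.mulVecLin X) LinearMap.id +
        (mB e).compl₁₂ LinearMap.id (Matrix.mulVecLin X) := by
    refine ext_eig hA.1 hB.1 fun x c hc hx => ?_
    refine ext_eig hA.1 hB.1 fun y c' hc' hy => ?_
    rw [LinearMap.compr₂_apply, LinearMap.add_apply, LinearMap.add_apply,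
      LinearMap.compl₁₂_apply, LinearMap.compl₁₂_apply]
    simp only [Matrix.mulVecLin_apply, mB_apply, LinearMap.id_apply]
    rw [h3 x c hc hx, h3 y c' hc' hy]
    have h8 := mR_smul e (Real.log c) 1 x y
    have h9 := mR_smul e 1 (Real.log c') x y
    rw [one_smul, mul_one] at h8
    rw [one_smul, one_mul] at h9
    rw [h8, h9, ← add_smul, ← Real.log_mul hc.ne' hc'.ne']
    refine h3 _ _ (mul_pos hc hc') ?_
    rw [h6 x y, hx, hy, mR_smul]
  intro x y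
  exact congrArg (fun F : (Fin N → ℝ) →ₗ[ℝ] (Fin N → ℝ) →ₗ[ℝ] (Fin N → ℝ) => F x y) h7

end

end Pool.Agent.ZX
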