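import Pool.Agent.Lib.MP_8f66f0_al_ZX.Met

/-! Project ZERO, part X: the topology of the Thompson metric is the topology of matrices, closed
balls are compact. -/

set_option autoImplicit false

namespace Pool.Agent.ZX

open Matrix Filter Topology

variable {n : Type} [Fintype n] [DecidableEq n]

/-- The square of the euclidean norm. -/
def nn (v : n → ℝ) : ℝ := ∑ i, v i ^ 2

theorem nn_nonneg (v : n → ℝ) : 0 ≤ nn v := Finset.sum_nonneg fun _ _ => sq_nonneg _

theorem qf_one (v : n → ℝ) : qf (1 : Matrix n n ℝ) v = nn v := by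
  unfold qf nn dotProduct
  refine Finset.sum_congr rfl fun i _ => ?_
  rw [one_mulVec, sq]

theorem qf_eq_sum (A : Matrix n n ℝ) (v : n → ℝ) : qf A v = ∑ i, ∑ j, v i * A i j * v j := by
  unfold qf dotProduct mulVec dotProduct
  refine Finset.sum_congr rfl fun i _ => ?_
  rw [Finset.mul_sum]
  exact Finset.sum_congr rfl fun j _ => by ring

/-- The number of entries. -/
def nk (n : Type) [Fintype n] : ℝ := (Fintype.card n : ℝ) ^ 2

theorem nk_nonneg : 0 ≤ nk n := sq_nonneg _

theorem qf_abs_le {A : Matrix n n ℝ} {η : ℝ} (h : ∀ i j, |A i j| ≤ η) (v : n → ℝ) :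
    |qf A v| ≤ η * nk n * nn v := by
  rw [qf_eq_sum]
  have h1 : ∀ i j, |v i * A i j * v j| ≤ η * nn v := by
    intro i j
    have h2 : |v i| ^ 2 ≤ nn v := by
      rw [sq_abs]
      exact Finset.single_le_sum (f := fun i => v i ^ 2) (fun i _ => sq_nonneg _)
        (Finset.mem_univ i)
    have h3 : |v j| ^ 2 ≤ nn v := by
      rw [sq_abs]
      exact Finset.single_le_sum (f := fun i => v i ^ 2) (fun i _ => sq_nonneg _)
        (Finset.mem_univ j)
    have h4 : |v i| * |v j| ≤ nn v := by nlinarith [sq_nonneg (|v i| - |v j|)]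
    have h5 : 0 ≤ |v i| * |v j| := mul_nonneg (abs_nonneg _) (abs_nonneg _)
    calc |v i * A i j * v j| = |A i j| * (|v i| * |v j|) := by
          rw [abs_mul, abs_mul]; ring
      _ ≤ η * (|v i| * |v j|) := mul_le_mul_of_nonneg_right (h i j) h5
      _ ≤ η * nn v := mul_le_mul_of_nonneg_left h4 ((abs_nonneg _).trans (h i j))
  calc |∑ i, ∑ j, v i * A i j * v j| ≤ ∑ i, |∑ j, v i * A i j * v j| :=
        Finset.abs_sum_le_sum_abs _ _
    _ ≤ ∑ _i : n, ∑ _j : n, η * nn v := Finset.sum_le_sum fun i _ =>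
        (Finset.abs_sum_le_sum_abs _ _).trans (Finset.sum_le_sum fun j _ => h1 i j)
    _ = η * nk n * nn v := by
        simp only [Finset.sum_const, Finset.card_univ, nsmul_eq_mul, nk]
        ring

theorem ent_le {E : Matrix n n ℝ} (hE : Eᵀ = E) {c : ℝ} (hc : 0 ≤ c)
    (h : ∀ v, |qf E v| ≤ c * nn v) (i j : n) : |E i j| ≤ 3 * c := by
  have h1 : ∀ i j, (Pi.single i (1 : ℝ) : n → ℝ) ⬝ᵥ (E *ᵥ Pi.single j 1) = E i j := by
    intro i j
    rw [mulVec_single_one, single_one_dotProduct]
    rfl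
  have h2 : qf E (Pi.single i 1 + Pi.single j 1) =
      qf E (Pi.single i 1) + qf E (Pi.single j 1) + 2 * E i j := by
    unfold qf
    rw [mulVec_add, dotProduct_add, add_dotProduct, add_dotProduct, h1, h1, h1, h1]
    have h3 : E j i = E i j := congrFun (congrFun hE i) j
    rw [h3]
    ring
  have h3 : ∀ i, nn (Pi.single i (1 : ℝ) : n → ℝ) = 1 := by
    intro i
    unfold nn
    rw [Finset.sum_eq_single i]
    · rw [Pi.single_eq_same]; norm_num
    · intro j _ hj
      rw [Pi.single_eq_of_ne hj]; norm_num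
    · intro hi
      exact absurd (Finset.mem_univ i) hi
  have h4 : nn (Pi.single i (1 : ℝ) + Pi.single j 1 : n → ℝ) ≤ 4 := by
    have h5 : nn (Pi.single i (1 : ℝ) + Pi.single j 1 : n → ℝ) ≤
        ∑ k, (2 * (Pi.single i (1 : ℝ) : n → ℝ) k ^ 2 +
          2 * (Pi.single j (1 : ℝ) : n → ℝ) k ^ 2) := by
      refine Finset.sum_le_sum fun k _ => ?_
      rw [Pi.add_apply]
      nlinarith [sq_nonneg ((Pi.single i (1 : ℝ) : n → ℝ) k - (Pi.single j (1 : ℝ) : n → ℝ) k)]
    rw [Finset.sum_add_distrib, ← Finset.mul_sum, ← Finset.mul_sum] at h5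
    have h6 := h3 i
    have h7 := h3 j
    unfold nn at h6 h7
    rw [h6, h7] at h5
    linarith
  have k1 := h (Pi.single i 1)
  have k2 := h (Pi.single j 1)
  have k3 := h (Pi.single i 1 + Pi.single j 1)
  rw [h3] at k1 k2
  rw [abs_le] at k1 k2 k3 ⊢
  have k4 : c * nn (Pi.single i (1 : ℝ) + Pi.single j 1 : n → ℝ) ≤ c * 4 :=
    mul_le_mul_of_nonneg_left h4 hc
  constructor <;> linarith [k3.1, k3.2, k1.1, k1.2, k2.1, k2.2]

/-- Matrices with close entries are close. -/
theorem nr_of_ent {A B : Matrix n n ℝ} {b η : ℝ} (hb : ∀ v, nn v ≤ b * qf B v)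
    (hB : ∀ v, 0 ≤ qf B v) (hη : 0 ≤ η) (h : ∀ i j, |A i j - B i j| ≤ η)
    (hs : η * nk n * b ≤ 1 / 2) (hb0 : 0 ≤ b) : Nr (2 * (η * nk n * b)) A B := by
  set u := η * nk n * b with hu
  have hu0 : 0 ≤ u := mul_nonneg (mul_nonneg hη nk_nonneg) hb0
  have h1 : ∀ v, |qf A v - qf B v| ≤ u * qf B v := by
    intro v
    rw [← qf_sub]
    calc |qf (A - B) v| ≤ η * nk n * nn v := qf_abs_le (fun i j => h i j) v
      _ ≤ η * nk n * (b * qf B v) :=
        mul_le_mul_of_nonneg_left (hb v) (mul_nonneg hη nk_nonneg)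
      _ = u * qf B v := by rw [hu]; ring
  have h2 : 1 + 2 * u ≤ Real.exp (2 * u) := by
    have := Real.add_one_le_exp (2 * u)
    linarith
  rw [nr_iff_qf]
  intro v
  have h3 := abs_le.1 (h1 v)
  have h4 := hB v
  constructor
  · nlinarith [mul_nonneg hu0 h4, mul_le_mul_of_nonneg_right h2 h4]
  · have h5 : (1 - u) * qf B v ≤ qf A v := by linarith [h3.1]
    have h6 : 1 ≤ Real.exp (2 * u) * (1 - u) := by
      have h7 : 0 ≤ 1 - u := by linarith
      nlinarith [mul_le_mul_of_nonneg_right h2 h7]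
    have h8 : 0 ≤ Real.exp (2 * u) := (Real.exp_pos _).le
    calc qf B v = 1 * qf B v := (one_mul _).symm
      _ ≤ Real.exp (2 * u) * (1 - u) * qf B v := mul_le_mul_of_nonneg_right h6 h4
      _ = Real.exp (2 * u) * ((1 - u) * qf B v) := by ring
      _ ≤ Real.exp (2 * u) * qf A v := mul_le_mul_of_nonneg_left h5 h8

/-- Close matrices have close entries. -/
theorem ent_of_nr {A B : Matrix n n ℝ} (hA : A.PosDef) (hB : B.PosDef) {b r : ℝ}
    (hb : ∀ v, qf B v ≤ b * nn v) (hb0 : 0 ≤ b) (hr : 0 ≤ r) (h : Nr r A B) (i j : n) :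
    |A i j - B i j| ≤ 3 * ((Real.exp r - 1) * b) := by
  have h0 : 0 ≤ Real.exp r - 1 := by
    have := Real.add_one_le_exp r
    linarith
  have h1 : (A - B)ᵀ = A - B := by
    rw [transpose_sub, isHermitian_iff.1 hA.1, isHermitian_iff.1 hB.1]
  refine ent_le h1 (mul_nonneg h0 hb0) (fun v => ?_) i j
  rw [nr_iff_qf] at h
  obtain ⟨h2, h3⟩ := h v
  have h4 := qf_nonneg hB v
  have h5 := qf_nonneg hA v
  have h6 : |qf A v - qf B v| ≤ (Real.exp r - 1) * qf B v := by
    rw [abs_le]
    constructor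
    · have h7 : qf B v - qf A v ≤ (Real.exp r - 1) * qf A v := by linarith
      by_cases h8 : qf A v ≤ qf B v
      · linarith [mul_le_mul_of_nonneg_left h8 h0]
      · push Not at h8
        linarith [mul_nonneg h0 h4]
    · linarith
  rw [qf_sub]
  calc |qf A v - qf B v| ≤ (Real.exp r - 1) * qf B v := h6
    _ ≤ (Real.exp r - 1) * (b * nn v) := mul_le_mul_of_nonneg_left (hb v) h0
    _ = (Real.exp r - 1) * b * nn v := by ring

/-- Bounds by multiples of the unit matrix. -/
theorem bds {B : Matrix n n ℝ} (hB : B.PosDef) :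
    ∃ b : ℝ, 0 < b ∧ (∀ v, nn v ≤ b * qf B v) ∧ ∀ v, qf B v ≤ b * nn v := by
  obtain ⟨r, h1, h2⟩ := nr_exists (A := (1 : Matrix n n ℝ)) Matrix.PosDef.one hB
  rw [nr_iff_qf] at h2
  simp only [qf_one] at h2
  exact ⟨Real.exp r, Real.exp_pos r, fun v => (h2 v).1, fun v => (h2 v).2⟩

/-- The entries. -/
def PD.en (A : PD n) : n → n → ℝ := A.1

theorem PD.en_inducing : Topology.IsInducing (PD.en : PD n → n → n → ℝ) := by
  rw [Topology.isInducing_iff_nhds]
  intro B
  obtain ⟨b, hb, hb1, hb2⟩ := bds B.2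
  refine le_antisymm ?_ ?_
  · rw [← tendsto_iff_comap]
    rw [Metric.tendsto_nhds_nhds]
    intro ε hε
    refine ⟨Real.log (1 + ε / (6 * b)), Real.log_pos (by
      have : 0 < ε / (6 * b) := by positivity
      linarith), fun {A} hA => ?_⟩
    have hA' : td A.1 B.1 < Real.log (1 + ε / (6 * b)) := hA
    have h1 := td_nr A.2 B.2
    have h2 : Real.exp (td A.1 B.1) - 1 ≤ ε / (6 * b) := by
      have h3 := Real.exp_lt_exp.2 hA'
      rw [Real.exp_log (by positivity)] at h3
      linarith
    have h3 : ∀ i j, |A.1 i j - B.1 i j| ≤ ε / 2 := by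
      intro i j
      refine (ent_of_nr A.2 B.2 hb2 hb.le (td_nonneg _ _) h1 i j).trans ?_
      calc 3 * ((Real.exp (td A.1 B.1) - 1) * b) ≤ 3 * (ε / (6 * b) * b) := by gcongr
        _ = ε / 2 := by
          field_simp
          ring
    refine lt_of_le_of_lt ?_ (half_lt_self hε)
    refine (dist_pi_le_iff (by positivity)).2 fun i => (dist_pi_le_iff (by positivity)).2 fun j => ?_
    exact h3 i j
  · intro s hs
    obtain ⟨ε, hε, h1⟩ := Metric.mem_nhds_iff.1 hs
    set c := nk n * b + 1 with hc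
    have hnb : 0 ≤ nk n * b := mul_nonneg nk_nonneg hb.le
    have hc0 : 0 < c := by linarith
    set η := min (ε / 4) (1 / 2) / c with hη
    have hη0 : 0 < η := div_pos (lt_min (by linarith) one_half_pos) hc0
    refine ⟨Metric.ball (PD.en B) η, Metric.ball_mem_nhds _ hη0, fun A hA => h1 ?_⟩
    have hA' : dist (PD.en A) (PD.en B) < η := hA
    have h2 : ∀ i j, |A.1 i j - B.1 i j| ≤ η := by
      intro i j
      have h3 := (dist_le_pi_dist (PD.en A) (PD.en B) i).trans hA'.le
      exact (dist_le_pi_dist (PD.en A i) (PD.en B i) j).trans h3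
    have h3 : η * nk n * b ≤ min (ε / 4) (1 / 2) := by
      have h4 : η * c = min (ε / 4) (1 / 2) := div_mul_cancel₀ _ hc0.ne'
      have h5 : η * (nk n * b) ≤ η * c := mul_le_mul_of_nonneg_left (by linarith) hη0.le
      calc η * nk n * b = η * (nk n * b) := by ring
        _ ≤ η * c := h5
        _ = _ := h4
    have h4 := nr_of_ent hb1 (qf_nonneg B.2) hη0.le h2 (h3.trans (min_le_right _ _)) hb.le
    have h5 : td A.1 B.1 ≤ 2 * (η * nk n * b) := (td_le_iff A.2 B.2).2
      ⟨by
        have : 0 ≤ η * nk n * b := mul_nonneg (mul_nonneg hη0.le nk_nonneg) hb.le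
        linarith, h4⟩
    have h6 := h3.trans (min_le_left _ _)
    change td A.1 B.1 < ε
    linarith

theorem PD.en_continuous : Continuous (PD.en : PD n → n → n → ℝ) := PD.en_inducing.continuous

theorem PD.en_injective : Function.Injective (PD.en : PD n → n → n → ℝ) :=
  fun _ _ h => Subtype.ext h

theorem qf_continuous (v : n → ℝ) : Continuous fun A : n → n → ℝ => qf (Matrix.of A) v := by
  simp only [qf_eq_sum]
  refine continuous_finsetSum _ fun i _ => continuous_finsetSum _ fun j _ => ?_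
  exact (continuous_const.mul (continuous_apply_apply i j)).mul continuous_const

theorem posDef_of_le {A B : Matrix n n ℝ} (hA : Aᵀ = A) (hB : B.PosDef) {c : ℝ}
    (h : ∀ v, qf B v ≤ c * qf A v) (hc : 0 ≤ c) : A.PosDef := by
  refine posDef_of_qf hA fun v hv => ?_
  by_contra h1
  push Not at h1
  have h2 := h v
  have h3 := qf_pos hB hv
  nlinarith

theorem PD.isCompact_closedBall (B : PD n) (R : ℝ) : IsCompact (Metric.closedBall B R) := by
  rcases lt_or_ge R 0 with hR | hR
  · rw [Metric.closedBall_eq_empty.2 hR]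
    exact isCompact_empty
  rw [PD.en_inducing.isCompact_iff]
  obtain ⟨b, hb, hb1, hb2⟩ := bds B.2
  have h1 : PD.en '' Metric.closedBall B R =
      {A : n → n → ℝ | (∀ i j, A i j = A j i) ∧ ∀ v, qf (Matrix.of A) v ≤ Real.exp R * qf B.1 v ∧
        qf B.1 v ≤ Real.exp R * qf (Matrix.of A) v} := by
    ext A
    constructor
    · rintro ⟨A, hA, rfl⟩
      have h2 := ((td_le_iff A.2 B.2).1 hA).2
      rw [nr_iff_qf] at h2
      exact ⟨fun i j => (congrFun (congrFun (isHermitian_iff.1 A.2.1) i) j).symm, h2⟩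
    · rintro ⟨h2, h3⟩
      have h4 : (Matrix.of A).PosDef := by
        refine posDef_of_le ?_ B.2 (fun v => (h3 v).2) (Real.exp_pos R).le
        ext i j
        exact h2 j i
      refine ⟨⟨Matrix.of A, h4⟩, ?_, rfl⟩
      exact (td_le_iff h4 B.2).2 ⟨hR, nr_iff_qf.2 h3⟩
  rw [h1]
  refine Metric.isCompact_of_isClosed_isBounded ?_ ?_
  · rw [Set.setOf_and]
    refine IsClosed.inter ?_ ?_
    · simp only [Set.setOf_forall]
      refine isClosed_iInter fun i => isClosed_iInter fun j => ?_
      exact isClosed_eq (continuous_apply_apply i j) (continuous_apply_apply j i)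
    · simp only [Set.setOf_forall, Set.setOf_and]
      refine isClosed_iInter fun v => IsClosed.inter ?_ ?_
      · exact isClosed_le (qf_continuous v) continuous_const
      · exact isClosed_le continuous_const (continuous_const.mul (qf_continuous v))
  · rw [← h1]
    refine (Metric.isBounded_iff_subset_closedBall (PD.en B)).2
      ⟨3 * ((Real.exp R - 1) * b), ?_⟩
    rintro _ ⟨A, hA, rfl⟩
    have h2 := ((td_le_iff A.2 B.2).1 hA).2
    have h0 : 0 ≤ Real.exp R - 1 := by
      have := Real.add_one_le_exp R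
      linarith
    have h3 : 0 ≤ 3 * ((Real.exp R - 1) * b) := by positivity
    refine (dist_pi_le_iff h3).2 fun i => (dist_pi_le_iff h3).2 fun j => ?_
    exact ent_of_nr A.2 B.2 hb2 hb.le hR h2 i j

instance : ProperSpace (PD n) := ⟨PD.isCompact_closedBall⟩

/-- Closed conditions on the entries. -/
theorem PD.isClosed_of {C : Set (n → n → ℝ)} (hC : IsClosed C) :
    IsClosed {A : PD n | PD.en A ∈ C} := hC.preimage PD.en_continuous

/-- Closed balls of closed subsets are compact. -/
theorem cpt_sub {S : Set (PD n)} (hS : IsClosed S) (x : S) (r : ℝ) :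
    IsCompact (Metric.closedBall x r) := by
  rw [Subtype.isCompact_iff]
  have h1 : Subtype.val '' Metric.closedBall x r = Metric.closedBall x.1 r ∩ S := by
    ext A
    constructor
    · rintro ⟨A, hA, rfl⟩
      exact ⟨hA, A.2⟩
    · rintro ⟨h2, h3⟩
      exact ⟨⟨A, h3⟩, h2, rfl⟩
  rw [h1]
  exact (PD.isCompact_closedBall x.1 r).inter_right hS

/-- Compactness in terms of the entries. -/
theorem compact_iff_en {S : Set (PD n)} (K : Set S) :
    IsCompact K ↔ IsCompact ((fun x : S => PD.en x.1) '' K) :=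
  (PD.en_inducing.comp Topology.IsInducing.subtypeVal).isCompact_iff

end Pool.Agent.ZX
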