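import Pool.Agent.Lib.MP_8f66f0_al_ZX.Chart
import Pool.Agent.Lib.MP_8f66f0_al_ZX.Top
import Pool.Agent.Lib.MP_8f66f0_al_ZR.IsY
import Pool.Agent.Lib.MP_8f66f0_al_ZR.Mul
import Pool.Agent.Lib.MP_8f66f0_al_ZR.Adj
import Pool.Agent.Lib.MP_8f66f0_al_ZR.Hs

/-! Project ZERO, part X: the exponential map is a homeomorphism. -/

set_option autoImplicit false

namespace Pool.Agent.ZX

open Matrix Module Pool.Agent.ZR Topology

section General

variable {n : Type} [Fintype n] [DecidableEq n]

set_option backward.isDefEq.respectTransparency false in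
theorem continuous_exp' :
    Continuous (NormedSpace.exp : Matrix n n ℝ → Matrix n n ℝ) :=
  open scoped Norms.Operator in NormedSpace.exp_continuous

theorem continuous_ex (A : Matrix n n ℝ) : Continuous (ex A) :=
  continuous_const.matrix_mul continuous_exp'

/-- The distance from the base point. -/
theorem td_ex {A X : Matrix n n ℝ} (hA : A.PosDef) (hX : Xᵀ * A = A * X) {r : ℝ}
    (h : td A (ex A X) ≤ r) (v : n → ℝ) : |qf (A * X) v| ≤ r * qf A v := by
  obtain ⟨g, d, h1, rfl, rfl⟩ := selfadj hA hX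
  rw [ex_cj h1, ← fr_one, td_fr h1 (fun _ => one_pos) (fun i => Real.exp_pos _)] at h
  simp only [Real.log_one, Real.log_exp, zero_sub, abs_neg] at h
  rw [ggt_cj h1, ← fr_one, qf_fr, qf_fr, Finset.mul_sum]
  refine (Finset.abs_sum_le_sum_abs _ _).trans (Finset.sum_le_sum fun i _ => ?_)
  rw [one_mul, abs_mul, abs_of_nonneg (sq_nonneg ((gᵀ *ᵥ v) i))]
  exact mul_le_mul_of_nonneg_right (h.2 i) (sq_nonneg _)

omit [Fintype n] [DecidableEq n] in
/-- Matrices with bounded entries. -/
theorem isCompact_ent (C : ℝ) : IsCompact {V : Matrix n n ℝ | ∀ i j, |V i j| ≤ C} := by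
  have h1 : {V : Matrix n n ℝ | ∀ i j, |V i j| ≤ C} =
      Set.univ.pi (fun _ : n => Set.univ.pi (fun _ : n => Set.Icc (-C) C)) := by
    ext V
    constructor
    · intro h i _ j _
      exact abs_le.1 (h i j)
    · intro h i j
      exact abs_le.2 (h i (Set.mem_univ i) j (Set.mem_univ j))
  rw [h1]
  exact isCompact_univ_pi fun _ => isCompact_univ_pi fun _ => isCompact_Icc

end General

section

variable {O : Type} [Ring O] {N : ℕ} (e : Basis (Fin N) ℤ O)

/-- The forms of the positive involutions in the space of positive definite matrices. -/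
def YP : Set (PD (Fin N)) := {A | A.1 ∈ YO e}

theorem YP_closed : IsClosed (YP e) := by
  by_cases h0 : (YP e).Nonempty
  · obtain ⟨A, hA⟩ := h0
    have hI := tIsY (tMul tLmul tAdj tHs) N O e (Tm_unit e hA).ne_zero
    refine isClosed_of_closure_subset fun B hB => ?_
    refine hI.closed B.1 B.2 ?_
    have h1 : Continuous (fun A : PD (Fin N) => (A.1 : Matrix (Fin N) (Fin N) ℝ)) :=
      PD.en_continuous
    exact closure_mono (Set.image_subset_iff.2 fun A hA => hA)
      (image_closure_subset_closure_image h1 ⟨B, hB, rfl⟩)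
  · rw [Set.not_nonempty_iff_eq_empty.1 h0]
    exact isClosed_empty

/-- The exponential map. -/
noncomputable def exY (A : YP e) (X : pp e A.1.1) : YP e :=
  ⟨⟨ex A.1.1 X.1, ex_posDef A.1.2 X.2.1⟩, ex_mem e A.2 X.2⟩

theorem exY_bij (A : YP e) : Function.Bijective (exY e A) := by
  constructor
  · intro X Y h
    refine Subtype.ext (ex_inj A.1.2 X.2.1 Y.2.1 ?_)
    exact congrArg (fun B : YP e => B.1.1) h
  · intro B
    obtain ⟨X, h1, h2⟩ := ex_surj_yo e A.2 B.2
    exact ⟨⟨X, h1⟩, Subtype.ext (Subtype.ext h2)⟩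

theorem exY_cont (A : YP e) : Continuous (exY e A) := by
  have h1 : IsInducing (fun B : YP e => PD.en B.1) :=
    PD.en_inducing.comp IsInducing.subtypeVal
  rw [h1.continuous_iff]
  exact (continuous_ex A.1.1).comp continuous_subtype_val

theorem exY_ball (A : YP e) (r : ℝ) : IsCompact (exY e A ⁻¹' Metric.closedBall A r) := by
  obtain ⟨b, hb, hb1, hb2⟩ := bds A.1.2
  rcases lt_or_ge r 0 with hr | hr
  · rw [Metric.closedBall_eq_empty.2 hr, Set.preimage_empty]
    exact isCompact_empty
  -- the compact set of all matrices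
  have h1 : IsCompact ((fun V : Matrix (Fin N) (Fin N) ℝ => (A.1.1)⁻¹ * V) ''
      {V | ∀ i j, |V i j| ≤ 3 * (r * b)}) :=
    (isCompact_ent _).image (continuous_const.matrix_mul continuous_id)
  have h2 : IsClosed ((pp e A.1.1 : Submodule ℝ (Matrix (Fin N) (Fin N) ℝ)) :
      Set (Matrix (Fin N) (Fin N) ℝ)) := Submodule.closed_of_finiteDimensional _
  have h3 := h2.isClosedEmbedding_subtypeVal.isCompact_preimage h1
  refine h3.of_isClosed_subset (Metric.isClosed_closedBall.preimage (exY_cont e A)) ?_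
  intro X hX
  refine ⟨A.1.1 * X.1, ?_, ?_⟩
  · intro i j
    have h4 : (A.1.1 * X.1)ᵀ = A.1.1 * X.1 := by
      rw [transpose_mul, isHermitian_iff.1 A.1.2.1]
      exact X.2.1
    refine ent_le h4 (mul_nonneg hr hb.le) (fun v => ?_) i j
    have h5 : td A.1.1 (ex A.1.1 X.1) ≤ r := by
      rw [td_comm]
      exact hX
    calc |qf (A.1.1 * X.1) v| ≤ r * qf A.1.1 v := td_ex A.1.2 X.2.1 h5 v
      _ ≤ r * (b * nn v) := mul_le_mul_of_nonneg_left (hb2 v) hr
      _ = r * b * nn v := by ring
  · change (A.1.1)⁻¹ * (A.1.1 * X.1) = X.1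
    rw [← Matrix.mul_assoc, nonsing_inv_mul _ (isUnit_det A.1.2), Matrix.one_mul]

instance : ProperSpace (YP e) := ⟨fun x r => cpt_sub (YP_closed e) x r⟩

theorem exY_closed (A : YP e) : IsClosedMap (exY e A) := by
  have h1 : IsProperMap (exY e A) := by
    rw [isProperMap_iff_isCompact_preimage]
    refine ⟨exY_cont e A, fun K hK => ?_⟩
    obtain ⟨r, hr⟩ := hK.isBounded.subset_closedBall A
    exact (exY_ball e A r).of_isClosed_subset (hK.isClosed.preimage (exY_cont e A))
      (Set.preimage_mono hr)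
  exact h1.isClosedMap

/-- The exponential map is a homeomorphism. -/
noncomputable def exH (A : YP e) : pp e A.1.1 ≃ₜ YP e :=
  (Equiv.ofBijective (exY e A) (exY_bij e A)).toHomeomorphOfContinuousClosed (exY_cont e A)
    (exY_closed e A)

/-- The line from the base point. -/
theorem exY_smul (A : YP e) (X : pp e A.1.1) (s : ℝ) :
    (exY e A (s • X)).1 = PD.ln A.1 (exY e A X).1 s :=
  Subtype.ext (ex_smul A.1.2 X.2.1 s)

/-- The chart. -/
noncomputable def ch (A : YP e) : YP e ≃ₜ (Fin (finrank ℝ (pp e A.1.1)) → ℝ) :=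
  (exH e A).symm.trans (Module.finBasis ℝ (pp e A.1.1)).equivFunL.toHomeomorph

theorem ch_smul (A : YP e) {B C : YP e} {s : ℝ} (h : C.1 = PD.ln A.1 B.1 s) :
    ch e A C = s • ch e A B := by
  obtain ⟨X, rfl⟩ := (exY_bij e A).2 B
  have h1 : C = exY e A (s • X) := Subtype.ext (h.trans (exY_smul e A X s).symm)
  have h2 : ∀ Y, (exH e A).symm (exY e A Y) = Y := fun Y => (exH e A).symm_apply_apply Y
  rw [h1]
  change (Module.finBasis ℝ (pp e A.1.1)).equivFunL ((exH e A).symm (exY e A (s • X))) =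
    s • (Module.finBasis ℝ (pp e A.1.1)).equivFunL ((exH e A).symm (exY e A X))
  rw [h2, h2, map_smul]

end

end Pool.Agent.ZX
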