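import Pool.Agent.Lib.MP_8f66f0_al_ZX.Mean

/-! Project ZERO, part X: the powers of `A⁻¹ B` and its eigenvectors. -/

set_option autoImplicit false

namespace Pool.Agent.ZX

open Matrix

variable {n : Type} [Fintype n] [DecidableEq n]

/-- `pw A B t` is the power `(A⁻¹ B) ^ t`. -/
noncomputable def pw (A B : Matrix n n ℝ) (t : ℝ) : Matrix n n ℝ := A⁻¹ * gm A B t

theorem detT {g : Matrix n n ℝ} (hg : IsUnit g.det) : IsUnit (gᵀ).det := by
  rwa [det_transpose]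

theorem pw_fr {g : Matrix n n ℝ} (hg : IsUnit g.det) {d : n → ℝ} (hd : ∀ i, 0 < d i) (t : ℝ) :
    pw (fr g (fun _ => 1)) (fr g d) t = (gᵀ)⁻¹ * diagonal (fun i => d i ^ t) * gᵀ := by
  unfold pw
  rw [gm_fr hg (fun _ => one_pos) hd, one_rp, inv_fr hg (fun _ => one_pos)]
  unfold fr
  rw [transpose_transpose, inv_one, transpose_nonsing_inv, diagonal_one, Matrix.mul_one]
  calc (gᵀ)⁻¹ * g⁻¹ * (g * diagonal (fun i => d i ^ t) * gᵀ)
      = (gᵀ)⁻¹ * (g⁻¹ * g) * diagonal (fun i => d i ^ t) * gᵀ := by simp only [Matrix.mul_assoc]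
    _ = _ := by rw [nonsing_inv_mul g hg, Matrix.mul_one]

theorem pw_one {A B : Matrix n n ℝ} (hA : A.PosDef) (hB : B.PosDef) : pw A B 1 = A⁻¹ * B := by
  unfold pw
  rw [gm_one hA hB]

/-- Equality of linear maps can be checked on the eigenvectors. -/
theorem ext_eig {A B : Matrix n n ℝ} (hA : A.PosDef) (hB : B.PosDef) {E : Type*}
    [AddCommGroup E] [Module ℝ E] {f f' : (n → ℝ) →ₗ[ℝ] E}
    (h : ∀ (v : n → ℝ) (c : ℝ), 0 < c → (A⁻¹ * B) *ᵥ v = c • v → f v = f' v) : f = f' := by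
  obtain ⟨g, d, h1, h2, rfl, rfl⟩ := simd' hA hB
  have h3 : (fr g (fun _ => 1))⁻¹ * fr g d = (gᵀ)⁻¹ * diagonal d * gᵀ := by
    rw [← pw_one hA hB, pw_fr h1 h2]
    simp only [Real.rpow_one]
  have h4 : ∀ i, f ((gᵀ)⁻¹ *ᵥ Pi.single i 1) = f' ((gᵀ)⁻¹ *ᵥ Pi.single i 1) := by
    intro i
    refine h _ (d i) (h2 i) ?_
    rw [h3, mulVec_mulVec, Matrix.mul_assoc, mul_nonsing_inv _ (detT h1), Matrix.mul_one,
      ← mulVec_mulVec, ← mulVec_smul]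
    congr 1
    funext j
    rw [mulVec_diagonal, Pi.smul_apply, smul_eq_mul]
    by_cases hij : j = i
    · rw [hij]
    · rw [Pi.single_eq_of_ne hij, mul_zero, mul_zero]
  have h5 : f ∘ₗ Matrix.mulVecLin (gᵀ)⁻¹ = f' ∘ₗ Matrix.mulVecLin (gᵀ)⁻¹ := by
    refine LinearMap.pi_ext' fun i => LinearMap.ext_ring ?_
    exact h4 i
  refine LinearMap.ext fun v => ?_
  have h6 := congrArg (fun F : (n → ℝ) →ₗ[ℝ] E => F (gᵀ *ᵥ v)) h5
  have h7 : (gᵀ)⁻¹ *ᵥ (gᵀ *ᵥ v) = v := by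
    rw [mulVec_mulVec, nonsing_inv_mul _ (detT h1), one_mulVec]
  simpa only [LinearMap.comp_apply, Matrix.mulVecLin_apply, h7] using h6

/-- The powers on an eigenvector. -/
theorem pw_eig {A B : Matrix n n ℝ} (hA : A.PosDef) (hB : B.PosDef) {v : n → ℝ} {c : ℝ}
    (h : (A⁻¹ * B) *ᵥ v = c • v) (t : ℝ) : pw A B t *ᵥ v = c ^ t • v := by
  obtain ⟨g, d, h1, h2, rfl, rfl⟩ := simd' hA hB
  rw [← pw_one hA hB, pw_fr h1 h2] at h
  simp only [Real.rpow_one] at h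
  rw [pw_fr h1 h2]
  have h3 : ∀ (f : n → ℝ), gᵀ *ᵥ (((gᵀ)⁻¹ * diagonal f * gᵀ) *ᵥ v) = diagonal f *ᵥ (gᵀ *ᵥ v) := by
    intro f
    rw [mulVec_mulVec, Matrix.mul_assoc, ← Matrix.mul_assoc gᵀ, mul_nonsing_inv _ (detT h1),
      Matrix.one_mul, ← mulVec_mulVec]
  have h4 : ∀ i, d i * (gᵀ *ᵥ v) i = c * (gᵀ *ᵥ v) i := by
    intro i
    have h5 := h3 d
    rw [h, mulVec_smul] at h5
    have h6 := congrFun h5 i
    rw [mulVec_diagonal, Pi.smul_apply, smul_eq_mul] at h6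
    exact h6.symm
  have h5 : gᵀ *ᵥ (((gᵀ)⁻¹ * diagonal (fun i => d i ^ t) * gᵀ) *ᵥ v) = gᵀ *ᵥ (c ^ t • v) := by
    rw [h3, mulVec_smul]
    funext i
    rw [mulVec_diagonal, Pi.smul_apply, smul_eq_mul]
    by_cases hz : (gᵀ *ᵥ v) i = 0
    · rw [hz, mul_zero, mul_zero]
    · rw [mul_right_cancel₀ hz (h4 i)]
  have h6 := congrArg (fun w => (gᵀ)⁻¹ *ᵥ w) h5
  simp only [mulVec_mulVec, nonsing_inv_mul _ (detT h1)] at h6
  rw [← Matrix.mul_assoc, ← Matrix.mul_assoc, nonsing_inv_mul _ (detT h1), Matrix.one_mul,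
    one_mulVec] at h6
  exact h6

/-- Matrices with the same values. -/
theorem mat_ext {M M' : Matrix n n ℝ} (h : ∀ v, M *ᵥ v = M' *ᵥ v) : M = M' := by
  apply Matrix.toLin'.injective
  refine LinearMap.ext fun v => ?_
  rw [Matrix.toLin'_apply, Matrix.toLin'_apply]
  exact h v

theorem isUnit_det {A : Matrix n n ℝ} (hA : A.PosDef) : IsUnit A.det :=
  isUnit_iff_ne_zero.2 hA.det_pos.ne'

theorem mul_pw {A B : Matrix n n ℝ} (hA : A.PosDef) (t : ℝ) : A * pw A B t = gm A B t := by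
  unfold pw
  rw [← Matrix.mul_assoc, mul_nonsing_inv _ (isUnit_det hA), Matrix.one_mul]

end Pool.Agent.ZX
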