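import Pool.Agent.Lib.MP_8f66f0_al_ZX.Top

/-! Project ZERO, part X: the geodesic flow is uniformly Lipschitz for bounded times. -/

set_option autoImplicit false

namespace Pool.Agent.ZX

open Matrix Filter Topology

variable {n : Type} [Fintype n] [DecidableEq n]

theorem qf_young {w : Matrix n n ℝ} (hw : w.PosDef) {m : ℝ} (hm : 0 < m) (v u : n → ℝ) :
    qf w (v + u) ≤ (1 + m) * qf w v + (1 + 1 / m) * qf w u := by
  have hs : ∀ a b : n → ℝ, a ⬝ᵥ (w *ᵥ b) = b ⬝ᵥ (w *ᵥ a) := by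
    intro a b
    rw [dotProduct_mulVec, ← mulVec_transpose, isHermitian_iff.1 hw.1, dotProduct_comm]
  have h1 : ∀ a b : n → ℝ, qf w (a + b) = qf w a + 2 * (a ⬝ᵥ (w *ᵥ b)) + qf w b := by
    intro a b
    unfold qf
    rw [mulVec_add, dotProduct_add, add_dotProduct, add_dotProduct, hs b a]
    ring
  have h2 := qf_nonneg hw (Real.sqrt m • v + (-(Real.sqrt m)⁻¹) • u)
  rw [h1] at h2
  have h3 : ∀ (c : ℝ) (a : n → ℝ), qf w (c • a) = c ^ 2 * qf w a := by
    intro c a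
    unfold qf
    rw [mulVec_smul, dotProduct_smul, smul_dotProduct, smul_eq_mul, smul_eq_mul]
    ring
  rw [h3, h3, mulVec_smul, dotProduct_smul, smul_dotProduct, smul_eq_mul, smul_eq_mul] at h2
  have h4 : Real.sqrt m ^ 2 = m := Real.sq_sqrt hm.le
  have h5 : (-(Real.sqrt m)⁻¹) ^ 2 = 1 / m := by
    rw [neg_sq, inv_pow, h4, one_div]
  have h6 : -(Real.sqrt m)⁻¹ * (Real.sqrt m * (v ⬝ᵥ (w *ᵥ u))) = -(v ⬝ᵥ (w *ᵥ u)) := by
    have : Real.sqrt m ≠ 0 := (Real.sqrt_pos.2 hm).ne'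
    field_simp
  rw [h4, h5, h6] at h2
  rw [h1]
  linarith

/-- Dilations close to the identity. -/
theorem dil {w : Matrix n n ℝ} (hw : w.PosDef) {R m : ℝ} (h1 : ∀ v, nn v ≤ Real.exp R * qf w v)
    (h2 : ∀ v, qf w v ≤ Real.exp R * nn v) (hm : 0 < m) (hm1 : m ≤ 1) {d : n → ℝ}
    (hd : ∀ i, |d i - 1| ≤ m) (v : n → ℝ) :
    qf w (diagonal d *ᵥ v) ≤ Real.exp (m * (1 + 2 * Real.exp (2 * R))) * qf w v := by
  set u : n → ℝ := fun i => (d i - 1) * v i with hu
  have h3 : diagonal d *ᵥ v = v + u := by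
    funext i
    rw [mulVec_diagonal, Pi.add_apply, hu]
    ring
  have h4 : nn u ≤ m ^ 2 * nn v := by
    unfold nn
    rw [Finset.mul_sum]
    refine Finset.sum_le_sum fun i _ => ?_
    rw [hu, mul_pow]
    refine mul_le_mul_of_nonneg_right ?_ (sq_nonneg _)
    rw [← sq_abs]
    exact pow_le_pow_left₀ (abs_nonneg _) (hd i) 2
  have e1 := Real.exp_pos R
  have e2 : Real.exp (2 * R) = Real.exp R * Real.exp R := by
    rw [← Real.exp_add]
    congr 1
    ring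
  have h5 : qf w u ≤ m ^ 2 * Real.exp (2 * R) * qf w v := by
    calc qf w u ≤ Real.exp R * nn u := h2 u
      _ ≤ Real.exp R * (m ^ 2 * nn v) := mul_le_mul_of_nonneg_left h4 e1.le
      _ ≤ Real.exp R * (m ^ 2 * (Real.exp R * qf w v)) :=
        mul_le_mul_of_nonneg_left (mul_le_mul_of_nonneg_left (h1 v) (sq_nonneg _)) e1.le
      _ = m ^ 2 * Real.exp (2 * R) * qf w v := by rw [e2]; ring
  have h6 := qf_young hw hm v u
  have h7 : (1 + 1 / m) * qf w u ≤ (1 + 1 / m) * (m ^ 2 * Real.exp (2 * R) * qf w v) :=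
    mul_le_mul_of_nonneg_left h5 (by positivity)
  have h8 : (1 + 1 / m) * (m ^ 2 * Real.exp (2 * R) * qf w v) =
      (m ^ 2 + m) * Real.exp (2 * R) * qf w v := by
    field_simp
  have h9 := qf_nonneg hw v
  have h10 : (m ^ 2 + m) * Real.exp (2 * R) * qf w v ≤
      2 * m * Real.exp (2 * R) * qf w v := by
    have : m ^ 2 ≤ m := by nlinarith
    gcongr
    linarith
  have h11 := Real.add_one_le_exp (m * (1 + 2 * Real.exp (2 * R)))
  have h12 := mul_le_mul_of_nonneg_right h11 h9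
  rw [h3]
  nlinarith

theorem abs_sub_one_le {x δ : ℝ} (hx : 0 < x) (h : |Real.log x| ≤ δ) (hδ : δ ≤ 1) :
    |x - 1| ≤ 2 * δ := by
  have h1 := Real.abs_exp_sub_one_le (h.trans hδ)
  rw [Real.exp_log hx] at h1
  linarith

theorem diag_inv_mulVec {d : n → ℝ} (hd : ∀ i, 0 < d i) (v : n → ℝ) :
    diagonal (fun i => (d i)⁻¹) *ᵥ (diagonal d *ᵥ v) = v := by
  rw [mulVec_mulVec, diagonal_mul_diagonal]
  have : (fun i => (d i)⁻¹ * d i) = fun _ => 1 := funext fun i => inv_mul_cancel₀ (hd i).ne'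
  rw [this, diagonal_one, one_mulVec]

/-- The Lipschitz constant of the reflection. -/
noncomputable def cR : ℝ := 2 * (1 + 2 * Real.exp 2)

theorem cR_pos : 0 < cR := by
  unfold cR
  have := Real.exp_pos 2
  positivity

theorem diag_near {w : Matrix n n ℝ} (hw : w.PosDef) (h1 : ∀ v, nn v ≤ Real.exp 1 * qf w v)
    (h2 : ∀ v, qf w v ≤ Real.exp 1 * nn v) {d : n → ℝ} (hd : ∀ i, 0 < d i) {δ : ℝ}
    (hδ : 0 < δ) (hδ1 : δ ≤ 1 / 2) (h : ∀ i, |Real.log (d i)| ≤ δ) :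
    Nr (cR * δ) w (diagonal d * w * (diagonal d)ᵀ) := by
  have e : Real.exp ((2 * δ) * (1 + 2 * Real.exp (2 * 1))) = Real.exp (cR * δ) := by
    unfold cR
    congr 1
    rw [mul_one]
    ring
  rw [nr_iff_qf]
  intro v
  rw [qf_cong, diagonal_transpose]
  have hm : (0 : ℝ) < 2 * δ := by linarith
  have hm1 : 2 * δ ≤ 1 := by linarith
  constructor
  · have h3 := dil hw h1 h2 hm hm1 (d := fun i => (d i)⁻¹) (fun i => by
      refine abs_sub_one_le (inv_pos.2 (hd i)) ?_ (by linarith)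
      rw [Real.log_inv, abs_neg]
      exact h i) (diagonal d *ᵥ v)
    rw [diag_inv_mulVec hd, e] at h3
    exact h3
  · have h3 := dil hw h1 h2 hm hm1 (d := d) (fun i =>
      abs_sub_one_le (hd i) (h i) (by linarith)) v
    rw [e] at h3
    exact h3

theorem td_refl_left {x x' y : Matrix n n ℝ} (hx : x.PosDef) (hx' : x'.PosDef) (hy : y.PosDef)
    (h1 : td x y ≤ 1) (h2 : td x x' ≤ 1 / 2) :
    td (gm x y (-1)) (gm x' y (-1)) ≤ cR * td x x' := by
  rcases (td_nonneg x x').eq_or_lt with h0 | h0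
  · have h3 := eq_of_td hx hx' h0.symm
    rw [← h3, td_self hx, td_self (gm_posDef hx hy _), mul_zero]
  have hδ : td x x' = td x x' := rfl
  obtain ⟨g, d, k1, k2, k3, k4⟩ := simd' hx hx'
  have hg1 : IsUnit (g⁻¹).det := by rw [det_nonsing_inv]; exact k1.ringInverse
  have h3 : ∀ i, |Real.log (d i)| ≤ td x x' := by
    have h4 := (td_le_iff hx hx').1 (le_refl (td x x'))
    have h5 : ∀ s, Nr s x x' → ∀ i, |Real.log (d i)| ≤ s := by
      intro s hs
      rw [k3, k4, nr_fr k1 (fun _ => one_pos) k2] at hs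
      intro i
      have := hs i
      rwa [Real.log_one, zero_sub, abs_neg] at this
    exact h5 _ h4.2
  set w := gᵀ * y⁻¹ * g with hw
  have pyi : (y⁻¹).PosDef := hy.inv
  have pw : w.PosDef := by
    have := posDef_cong (g := gᵀ) (by rw [det_transpose]; exact k1) pyi
    rwa [transpose_transpose] at this
  have h4 : gm x y (-1) = g * w * gᵀ := by
    rw [gm_neg hx hy, k3, fr_one, hw]
    simp only [Matrix.mul_assoc]
  have h5 : gm x' y (-1) = g * (diagonal d * w * (diagonal d)ᵀ) * gᵀ := by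
    rw [gm_neg hx' hy, k4, hw, diagonal_transpose]
    unfold fr
    simp only [Matrix.mul_assoc]
  have h6 : td 1 w ≤ 1 := by
    have e1 : w = (g⁻¹ * y * (g⁻¹)ᵀ)⁻¹ := by
      rw [Matrix.mul_inv_rev, Matrix.mul_inv_rev, transpose_nonsing_inv,
        nonsing_inv_nonsing_inv _ (by rw [det_transpose]; exact k1),
        nonsing_inv_nonsing_inv _ k1, hw, Matrix.mul_assoc]
    have e2 : (1 : Matrix n n ℝ) = (g⁻¹ * x * (g⁻¹)ᵀ)⁻¹ := by
      have := inv_cancel k1 1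
      rw [Matrix.mul_one] at this
      rw [k3, fr_one, this, inv_one]
    rw [e1, e2, td_inv (posDef_cong hg1 hx) (posDef_cong hg1 hy), td_cong hg1]
    exact h1
  have h7 := ((td_le_iff Matrix.PosDef.one pw).1 h6).2
  rw [nr_iff_qf] at h7
  simp only [qf_one] at h7
  have h8 := diag_near pw (fun v => (h7 v).1) (fun v => (h7 v).2) k2 h0 h2 h3
  have pD : IsUnit (diagonal d).det := by
    rw [det_diagonal]
    exact isUnit_iff_ne_zero.2 (Finset.prod_ne_zero_iff.2 fun i _ => (k2 i).ne')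
  rw [h4, h5, td_cong k1]
  exact (td_le_iff pw (posDef_cong pD pw)).2 ⟨mul_nonneg cR_pos.le h0.le, h8⟩

/-- The reflection is Lipschitz. -/
theorem td_refl {x x' y y' : Matrix n n ℝ} (hx : x.PosDef) (hx' : x'.PosDef) (hy : y.PosDef)
    (hy' : y'.PosDef) (h1 : td x y ≤ 1) (h2 : td x x' ≤ 1 / 2) :
    td (gm x y (-1)) (gm x' y' (-1)) ≤ cR * td x x' + td y y' := by
  refine (td_triangle (gm_posDef hx hy _) (gm_posDef hx' hy _) (gm_posDef hx' hy' _)).trans
    (add_le_add (td_refl_left hx hx' hy h1 h2) ?_)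
  have hu : IsUnit x'.det := hx'.det_pos.ne'.isUnit
  have h3 : ∀ z : Matrix n n ℝ, x' * z * x' = x' * z * x'ᵀ := by
    intro z
    rw [isHermitian_iff.1 hx'.1]
  rw [gm_neg hx' hy, gm_neg hx' hy', h3, h3, td_cong hu, td_inv hy hy']

theorem td_nat {x x' y y' : Matrix n n ℝ} (hx : x.PosDef) (hx' : x'.PosDef) (hy : y.PosDef)
    (hy' : y'.PosDef) (h1 : td x y ≤ 1) {μ : ℝ} (hμx : td x x' ≤ μ) (hμy : td y y' ≤ μ)
    (k : ℕ) (hk : (cR + 1) ^ k * μ ≤ 1 / 2) :
    td (gm x y k) (gm x' y' k) ≤ (cR + 1) ^ k * μ ∧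
      td (gm x y (k + 1)) (gm x' y' (k + 1)) ≤ (cR + 1) ^ (k + 1) * μ := by
  have hc := cR_pos
  have hμ : 0 ≤ μ := (td_nonneg _ _).trans hμx
  induction k with
  | zero =>
    rw [Nat.cast_zero, zero_add, gm_zero hx hy, gm_zero hx' hy', gm_one hx hy, gm_one hx' hy']
    refine ⟨by simpa using hμx, ?_⟩
    rw [zero_add, pow_one]
    nlinarith
  | succ k ih =>
    have h2 : (cR + 1) ^ k * μ ≤ (cR + 1) ^ (k + 1) * μ := by
      refine mul_le_mul_of_nonneg_right ?_ hμ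
      exact pow_le_pow_right₀ (by linarith) (Nat.le_succ k)
    obtain ⟨h3, h4⟩ := ih (h2.trans hk)
    rw [Nat.cast_succ]
    refine ⟨h4, ?_⟩
    have h5 : ∀ x y : Matrix n n ℝ, x.PosDef → y.PosDef → gm x y ((k : ℝ) + 1 + 1) =
        gm (gm x y ((k : ℝ) + 1)) (gm x y k) (-1) := by
      intro x y hx hy
      rw [gm_gm hx hy]
      congr 1
      ring
    rw [h5 x y hx hy, h5 x' y' hx' hy']
    have h6 : td (gm x y ((k : ℝ) + 1)) (gm x y k) ≤ 1 := by
      rw [td_gm hx hy]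
      have : |(k : ℝ) + 1 - k| = 1 := by
        rw [add_sub_cancel_left, abs_one]
      rw [this, one_mul]
      exact h1
    have h7 := td_refl (gm_posDef hx hy ((k : ℝ) + 1)) (gm_posDef hx' hy' ((k : ℝ) + 1))
      (gm_posDef hx hy k) (gm_posDef hx' hy' k) h6 (h4.trans hk)
    refine h7.trans ?_
    have h8 : (cR + 1) ^ k * μ ≤ (cR + 1) ^ (k + 1) * μ := h2
    calc cR * td (gm x y ((k : ℝ) + 1)) (gm x' y' ((k : ℝ) + 1)) +
          td (gm x y k) (gm x' y' k)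
        ≤ cR * ((cR + 1) ^ (k + 1) * μ) + (cR + 1) ^ (k + 1) * μ :=
          add_le_add (mul_le_mul_of_nonneg_left h4 hc.le) (h3.trans h8)
      _ = (cR + 1) ^ (k + 1 + 1) * μ := by
          rw [pow_succ (cR + 1) (k + 1)]
          ring

theorem td_pos_time {x x' y y' : Matrix n n ℝ} (hx : x.PosDef) (hx' : x'.PosDef) (hy : y.PosDef)
    (hy' : y'.PosDef) (h1 : td x y ≤ 1) {μ : ℝ} (hμx : td x x' ≤ μ) (hμy : td y y' ≤ μ)
    (K : ℕ) (hK : (cR + 1) ^ K * μ ≤ 1 / 2) {t : ℝ} (h0 : 0 ≤ t) (ht : t < K) :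
    td (gm x y t) (gm x' y' t) ≤ (cR + 1) ^ K * μ := by
  have hc := cR_pos
  have hμ : 0 ≤ μ := (td_nonneg _ _).trans hμx
  set k := ⌊t⌋₊ with hk
  have h2 : (k : ℝ) ≤ t := Nat.floor_le h0
  have h3 : t < k + 1 := Nat.lt_floor_add_one t
  have h4 : k + 1 ≤ K := by
    have : (k : ℝ) < K := h2.trans_lt ht
    exact_mod_cast this
  have h5 : ∀ j, j ≤ K → (cR + 1) ^ j * μ ≤ (cR + 1) ^ K * μ := fun j hj =>
    mul_le_mul_of_nonneg_right (pow_le_pow_right₀ (by linarith) hj) hμ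
  obtain ⟨h6, h7⟩ := td_nat hx hx' hy hy' h1 hμx hμy k ((h5 k (by omega)).trans hK)
  have h8 : ∀ x y : Matrix n n ℝ, x.PosDef → y.PosDef → gm x y t =
      gm (gm x y k) (gm x y ((k : ℝ) + 1)) (t - k) := by
    intro x y hx hy
    rw [gm_gm hx hy]
    congr 1
    ring
  rw [h8 x y hx hy, h8 x' y' hx' hy']
  have h9 : 0 ≤ t - k := by linarith
  have h10 : t - k ≤ 1 := by linarith
  refine (td_cvx (gm_posDef hx hy _) (gm_posDef hx hy _) (gm_posDef hx' hy' _)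
    (gm_posDef hx' hy' _) h9 h10).trans ?_
  have h11 := mul_le_mul_of_nonneg_left (h6.trans (h5 k (by omega))) (sub_nonneg.2 h10)
  have h12 := mul_le_mul_of_nonneg_left (h7.trans (h5 (k + 1) h4)) h9
  linarith

/-- The flow is uniformly Lipschitz. -/
theorem PD.lip (T : ℝ) : ∃ C δ : ℝ, 0 < C ∧ 0 < δ ∧ ∀ x y x' y' : PD n, dist x y = 1 →
    dist x' y' = 1 → dist x x' ≤ δ → dist y y' ≤ δ → ∀ t : ℝ, |t| ≤ T →
      dist (PD.ln x y t) (PD.ln x' y' t) ≤ C * max (dist x x') (dist y y') := by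
  have hc := cR_pos
  obtain ⟨K, hK⟩ := exists_nat_gt (T + 1)
  have hC : 0 < (cR + 1) ^ K := by positivity
  refine ⟨(cR + 1) ^ K, 1 / 2 / (cR + 1) ^ K, hC, by positivity, ?_⟩
  intro x y x' y' h1 h1' h2 h3 t ht
  set μ := max (dist x x') (dist y y') with hμ
  have hμ1 : (cR + 1) ^ K * μ ≤ 1 / 2 := by
    have : μ ≤ 1 / 2 / (cR + 1) ^ K := max_le h2 h3
    rw [le_div_iff₀ hC] at this
    linarith
  have hx : td x.1 x'.1 ≤ μ := le_max_left _ _
  have hy : td y.1 y'.1 ≤ μ := le_max_right _ _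
  have h4 : td x.1 y.1 ≤ 1 := h1.le
  rw [abs_le] at ht
  rcases le_or_gt 0 t with h0 | h0
  · exact td_pos_time x.2 x'.2 y.2 y'.2 h4 hx hy K hμ1 h0 (by linarith [ht.2])
  · have h5 : td y.1 x.1 ≤ 1 := by rw [td_comm]; exact h4
    have h6 := td_pos_time y.2 y'.2 x.2 x'.2 h5 hy hx K hμ1 (t := 1 - t) (by linarith)
      (by linarith [ht.1])
    rw [← gm_symm x.2 y.2, ← gm_symm x'.2 y'.2] at h6
    exact h6

end Pool.Agent.ZX
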