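import Pool.Agent.Lib.MP_8f66f0_al_ZX.Pd

/-! Project ZERO, part X: the lines `A #_t B` (weighted geometric means, `t` real) of positive
definite matrices. -/

set_option autoImplicit false

namespace Pool.Agent.ZX

open Matrix

variable {n : Type} [Fintype n] [DecidableEq n]

open Classical in
/-- The line `A #_t B`. -/
noncomputable def gm (A B : Matrix n n ℝ) (t : ℝ) : Matrix n n ℝ :=
  if h : A.PosDef ∧ B.PosDef then
    fr (Classical.choose (simd h.1 (isHermitian_iff.1 h.2.1)))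
      (fun i => (Classical.choose (Classical.choose_spec
        (simd h.1 (isHermitian_iff.1 h.2.1))) i) ^ t)
  else A

theorem gm_fr1 {g : Matrix n n ℝ} (hg : IsUnit g.det) {d : n → ℝ} (hd : ∀ i, 0 < d i) (t : ℝ) :
    gm (g * gᵀ) (fr g d) t = fr g (fun i => d i ^ t) := by
  have h : (g * gᵀ).PosDef ∧ (fr g d).PosDef := by
    refine ⟨?_, posDef_fr hg hd⟩
    rw [← fr_one]
    exact posDef_fr hg fun _ => one_pos
  unfold gm
  rw [dif_pos h]
  obtain ⟨h1, h2, h3⟩ := Classical.choose_spec (Classical.choose_spec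
    (simd h.1 (isHermitian_iff.1 h.2.1)))
  exact (fr_unique hg h1 h2 h3 fun x => x ^ t).symm

theorem fr_sc (g : Matrix n n ℝ) {a : n → ℝ} (ha : ∀ i, 0 < a i) (d : n → ℝ) :
    fr (g * diagonal (fun i => Real.sqrt (a i))) d = fr g (fun i => a i * d i) := by
  rw [mul_fr g _ d]
  unfold fr
  rw [diagonal_transpose, diagonal_mul_diagonal, diagonal_mul_diagonal]
  congr 3
  funext i
  calc Real.sqrt (a i) * d i * Real.sqrt (a i) = Real.sqrt (a i) * Real.sqrt (a i) * d i := by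
        ring
    _ = a i * d i := by rw [Real.mul_self_sqrt (ha i).le]

theorem det_sc {g : Matrix n n ℝ} (hg : IsUnit g.det) {a : n → ℝ} (ha : ∀ i, 0 < a i) :
    IsUnit (g * diagonal (fun i => Real.sqrt (a i))).det := by
  rw [det_mul, det_diagonal]
  refine hg.mul (isUnit_iff_ne_zero.2 ?_)
  exact Finset.prod_ne_zero_iff.2 fun i _ => (Real.sqrt_pos.2 (ha i)).ne'

/-- The mean in a frame. -/
theorem gm_fr {g : Matrix n n ℝ} (hg : IsUnit g.det) {a b : n → ℝ} (ha : ∀ i, 0 < a i)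
    (hb : ∀ i, 0 < b i) (t : ℝ) :
    gm (fr g a) (fr g b) t = fr g (fun i => a i ^ (1 - t) * b i ^ t) := by
  have h1 : fr g a = (g * diagonal (fun i => Real.sqrt (a i))) *
      (g * diagonal (fun i => Real.sqrt (a i)))ᵀ := by
    rw [← fr_one, fr_sc g ha]
    simp only [mul_one]
  have h2 : fr g b = fr (g * diagonal (fun i => Real.sqrt (a i))) (fun i => b i / a i) := by
    rw [fr_sc g ha]
    congr 1
    funext i
    rw [mul_div_cancel₀ _ (ha i).ne']
  rw [h1, h2, gm_fr1 (det_sc hg ha) (fun i => div_pos (hb i) (ha i)), fr_sc g ha]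
  congr 1
  funext i
  rw [Real.div_rpow (hb i).le (ha i).le, Real.rpow_sub (ha i), Real.rpow_one]
  ring

/-- Two positive definite matrices in a frame. -/
theorem simd' {A B : Matrix n n ℝ} (hA : A.PosDef) (hB : B.PosDef) :
    ∃ (g : Matrix n n ℝ) (d : n → ℝ), IsUnit g.det ∧ (∀ i, 0 < d i) ∧ A = fr g (fun _ => 1) ∧
      B = fr g d := by
  obtain ⟨g, d, h1, h2, h3⟩ := simd hA (isHermitian_iff.1 hB.1)
  exact ⟨g, d, h1, pos_of_posDef h1 (h3 ▸ hB), by rw [fr_one]; exact h2, h3⟩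

theorem one_rp {d : n → ℝ} (t : ℝ) :
    (fun i => (1 : ℝ) ^ (1 - t) * d i ^ t) = fun i => d i ^ t := by
  funext i
  rw [Real.one_rpow, one_mul]

theorem gm_zero {A B : Matrix n n ℝ} (hA : A.PosDef) (hB : B.PosDef) : gm A B 0 = A := by
  obtain ⟨g, d, h1, h2, rfl, rfl⟩ := simd' hA hB
  rw [gm_fr h1 (fun _ => one_pos) h2, one_rp]
  simp only [Real.rpow_zero]

theorem gm_one {A B : Matrix n n ℝ} (hA : A.PosDef) (hB : B.PosDef) : gm A B 1 = B := by
  obtain ⟨g, d, h1, h2, rfl, rfl⟩ := simd' hA hB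
  rw [gm_fr h1 (fun _ => one_pos) h2, one_rp]
  simp only [Real.rpow_one]

theorem gm_posDef {A B : Matrix n n ℝ} (hA : A.PosDef) (hB : B.PosDef) (t : ℝ) :
    (gm A B t).PosDef := by
  obtain ⟨g, d, h1, h2, rfl, rfl⟩ := simd' hA hB
  rw [gm_fr h1 (fun _ => one_pos) h2, one_rp]
  exact posDef_fr h1 fun i => Real.rpow_pos_of_pos (h2 i) _

theorem gm_gm {A B : Matrix n n ℝ} (hA : A.PosDef) (hB : B.PosDef) (s t r : ℝ) :
    gm (gm A B s) (gm A B t) r = gm A B (s + r * (t - s)) := by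
  obtain ⟨g, d, h1, h2, rfl, rfl⟩ := simd' hA hB
  rw [gm_fr h1 (fun _ => one_pos) h2, gm_fr h1 (fun _ => one_pos) h2,
    gm_fr h1 (fun _ => one_pos) h2, one_rp, one_rp, one_rp,
    gm_fr h1 (fun i => Real.rpow_pos_of_pos (h2 i) _) (fun i => Real.rpow_pos_of_pos (h2 i) _)]
  congr 1
  funext i
  rw [← Real.rpow_mul (h2 i).le, ← Real.rpow_mul (h2 i).le, ← Real.rpow_add (h2 i)]
  congr 1
  ring

theorem gm_self {A : Matrix n n ℝ} (hA : A.PosDef) (t : ℝ) : gm A A t = A := by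
  obtain ⟨g, d, h1, h2, h3, h4⟩ := simd' hA hA
  have h5 := gm_fr h1 (a := fun _ => 1) (b := fun _ => 1) (fun _ => one_pos)
    (fun _ => one_pos) t
  rw [← h3, one_rp] at h5
  rw [h5]
  simp only [Real.one_rpow]
  exact h3.symm

theorem gm_symm {A B : Matrix n n ℝ} (hA : A.PosDef) (hB : B.PosDef) (t : ℝ) :
    gm A B t = gm B A (1 - t) := by
  obtain ⟨g, d, h1, h2, rfl, rfl⟩ := simd' hA hB
  rw [gm_fr h1 (fun _ => one_pos) h2, gm_fr h1 h2 (fun _ => one_pos)]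
  congr 1
  funext i
  rw [Real.one_rpow, sub_sub_cancel, one_mul, mul_one]

theorem gm_cong {A B h : Matrix n n ℝ} (hA : A.PosDef) (hB : B.PosDef) (hh : IsUnit h.det)
    (t : ℝ) : gm (h * A * hᵀ) (h * B * hᵀ) t = h * gm A B t * hᵀ := by
  obtain ⟨g, d, h1, h2, rfl, rfl⟩ := simd' hA hB
  have h3 : IsUnit (h * g).det := by rw [det_mul]; exact hh.mul h1
  rw [← mul_fr, ← mul_fr, gm_fr h3 (fun _ => one_pos) h2, gm_fr h1 (fun _ => one_pos) h2,
    mul_fr]

theorem gm_smul {A B : Matrix n n ℝ} (hA : A.PosDef) (hB : B.PosDef) {a b : ℝ} (ha : 0 < a)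
    (hb : 0 < b) (t : ℝ) : gm (a • A) (b • B) t = (a ^ (1 - t) * b ^ t) • gm A B t := by
  obtain ⟨g, d, h1, h2, rfl, rfl⟩ := simd' hA hB
  rw [smul_fr, smul_fr, gm_fr h1 (fun _ => mul_pos ha one_pos) (fun i => mul_pos hb (h2 i)),
    gm_fr h1 (fun _ => one_pos) h2, smul_fr]
  congr 1
  funext i
  rw [mul_one, Real.one_rpow, Real.mul_rpow hb.le (h2 i).le]
  ring

/-- The inverse in a frame. -/
theorem inv_fr {g : Matrix n n ℝ} (hg : IsUnit g.det) {d : n → ℝ} (hd : ∀ i, 0 < d i) :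
    (fr g d)⁻¹ = fr (g⁻¹)ᵀ (fun i => (d i)⁻¹) := by
  apply inv_eq_right_inv
  unfold fr
  rw [transpose_transpose]
  have h1 : gᵀ * (g⁻¹)ᵀ = 1 := by
    rw [← transpose_mul, nonsing_inv_mul g hg, transpose_one]
  calc g * diagonal d * gᵀ * ((g⁻¹)ᵀ * diagonal (fun i => (d i)⁻¹) * g⁻¹)
      = g * diagonal d * (gᵀ * (g⁻¹)ᵀ) * diagonal (fun i => (d i)⁻¹) * g⁻¹ := by
        simp only [Matrix.mul_assoc]
    _ = g * (diagonal d * diagonal (fun i => (d i)⁻¹)) * g⁻¹ := by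
        rw [h1, Matrix.mul_one]
        simp only [Matrix.mul_assoc]
    _ = 1 := by
        rw [diagonal_mul_diagonal]
        have h2 : (fun i => d i * (d i)⁻¹) = fun _ => 1 :=
          funext fun i => mul_inv_cancel₀ (hd i).ne'
        rw [h2, diagonal_one, Matrix.mul_one, mul_nonsing_inv g hg]

theorem det_invT {g : Matrix n n ℝ} (hg : IsUnit g.det) : IsUnit ((g⁻¹)ᵀ).det := by
  rw [det_transpose, det_nonsing_inv]
  exact hg.ringInverse

theorem gm_inv {A B : Matrix n n ℝ} (hA : A.PosDef) (hB : B.PosDef) (t : ℝ) :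
    gm A⁻¹ B⁻¹ t = (gm A B t)⁻¹ := by
  obtain ⟨g, d, h1, h2, rfl, rfl⟩ := simd' hA hB
  rw [inv_fr h1 (fun _ => one_pos), inv_fr h1 h2, gm_fr h1 (fun _ => one_pos) h2, one_rp,
    inv_fr h1 (fun i => Real.rpow_pos_of_pos (h2 i) _), inv_one,
    gm_fr (det_invT h1) (fun _ => one_pos) (fun i => inv_pos.2 (h2 i)), one_rp]
  congr 1
  funext i
  rw [Real.inv_rpow (h2 i).le]

/-- The point reflected in `A`. -/
theorem gm_neg {A B : Matrix n n ℝ} (hA : A.PosDef) (hB : B.PosDef) :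
    gm A B (-1) = A * B⁻¹ * A := by
  obtain ⟨g, d, h1, h2, rfl, rfl⟩ := simd' hA hB
  rw [gm_fr h1 (fun _ => one_pos) h2, one_rp, inv_fr h1 h2]
  unfold fr
  rw [transpose_transpose, diagonal_one, Matrix.mul_one]
  have h3 : gᵀ * (g⁻¹)ᵀ = 1 := by
    rw [← transpose_mul, nonsing_inv_mul g h1, transpose_one]
  calc g * diagonal (fun i => d i ^ (-1 : ℝ)) * gᵀ
      = g * (gᵀ * (g⁻¹)ᵀ) * diagonal (fun i => (d i)⁻¹) * (g⁻¹ * g) * gᵀ := by
        rw [h3, nonsing_inv_mul g h1, Matrix.mul_one, Matrix.mul_one]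
        congr 3
        funext i
        rw [Real.rpow_neg_one]
    _ = g * gᵀ * ((g⁻¹)ᵀ * diagonal (fun i => (d i)⁻¹) * g⁻¹) * (g * gᵀ) := by
        simp only [Matrix.mul_assoc]

end Pool.Agent.ZX
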