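import Pool.Agent.Lib.MP_8f66f0_al_ZX.Mono

/-! Project ZERO, part X: the Thompson metric on the positive definite matrices, the lines. -/

set_option autoImplicit false

namespace Pool.Agent.ZX

open Matrix Filter Topology

variable {n : Type} [Fintype n] [DecidableEq n]

/-- `exp (-r) B ≤ A ≤ exp r B`. -/
def Nr (r : ℝ) (A B : Matrix n n ℝ) : Prop :=
  Le A (Real.exp r • B) ∧ Le B (Real.exp r • A)

theorem nr_iff_qf {r : ℝ} {A B : Matrix n n ℝ} :
    Nr r A B ↔ ∀ v, qf A v ≤ Real.exp r * qf B v ∧ qf B v ≤ Real.exp r * qf A v := by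
  unfold Nr Le
  simp only [qf_smul]
  exact forall_and.symm

theorem Nr.symm {r : ℝ} {A B : Matrix n n ℝ} (h : Nr r A B) : Nr r B A := ⟨h.2, h.1⟩

theorem Nr.trans {r s : ℝ} {A B C : Matrix n n ℝ} (h : Nr r A B) (k : Nr s B C) :
    Nr (r + s) A C := by
  rw [nr_iff_qf] at h k ⊢
  intro v
  rw [Real.exp_add]
  have e1 := Real.exp_pos r
  have e2 := Real.exp_pos s
  constructor
  · calc qf A v ≤ Real.exp r * qf B v := (h v).1
      _ ≤ Real.exp r * (Real.exp s * qf C v) := mul_le_mul_of_nonneg_left (k v).1 e1.le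
      _ = Real.exp r * Real.exp s * qf C v := by ring
  · calc qf C v ≤ Real.exp s * qf B v := (k v).2
      _ ≤ Real.exp s * (Real.exp r * qf A v) := mul_le_mul_of_nonneg_left (h v).2 e2.le
      _ = Real.exp r * Real.exp s * qf A v := by ring

theorem Nr.cong {r : ℝ} {A B : Matrix n n ℝ} (h : Nr r A B) (g : Matrix n n ℝ) :
    Nr r (g * A * gᵀ) (g * B * gᵀ) := by
  have h1 : ∀ X : Matrix n n ℝ, Real.exp r • (g * X * gᵀ) = g * (Real.exp r • X) * gᵀ := by
    intro X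
    rw [Matrix.mul_smul, Matrix.smul_mul]
  unfold Nr
  rw [h1, h1]
  exact ⟨h.1.cong g, h.2.cong g⟩

theorem Nr.cong_iff {r : ℝ} {A B g : Matrix n n ℝ} (hg : IsUnit g.det) :
    Nr r (g * A * gᵀ) (g * B * gᵀ) ↔ Nr r A B := by
  have h1 : ∀ X : Matrix n n ℝ, Real.exp r • (g * X * gᵀ) = g * (Real.exp r • X) * gᵀ := by
    intro X
    rw [Matrix.mul_smul, Matrix.smul_mul]
  unfold Nr
  rw [h1, h1, Le.cong_iff hg, Le.cong_iff hg]

theorem nr_fr {r : ℝ} {g : Matrix n n ℝ} (hg : IsUnit g.det) {a b : n → ℝ}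
    (ha : ∀ i, 0 < a i) (hb : ∀ i, 0 < b i) :
    Nr r (fr g a) (fr g b) ↔ ∀ i, |Real.log (a i) - Real.log (b i)| ≤ r := by
  unfold Nr
  rw [smul_fr, smul_fr, le_fr hg, le_fr hg, ← forall_and]
  refine forall_congr' fun i => ?_
  have h1 : ∀ x y : ℝ, 0 < x → 0 < y →
      (x ≤ Real.exp r * y ↔ Real.log x - Real.log y ≤ r) := by
    intro x y hx hy
    rw [← Real.log_le_log_iff hx (mul_pos (Real.exp_pos r) hy),
      Real.log_mul (Real.exp_pos r).ne' hy.ne', Real.log_exp, sub_le_iff_le_add]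
  rw [h1 _ _ (ha i) (hb i), h1 _ _ (hb i) (ha i), abs_le]
  constructor
  · rintro ⟨k1, k2⟩
    exact ⟨by linarith, k1⟩
  · rintro ⟨k1, k2⟩
    exact ⟨k2, by linarith⟩

theorem Nr.mono {r s : ℝ} {A B : Matrix n n ℝ} (hA : A.PosDef) (hB : B.PosDef) (hrs : r ≤ s)
    (h : Nr r A B) : Nr s A B := by
  rw [nr_iff_qf] at h ⊢
  intro v
  have h1 := Real.exp_le_exp.2 hrs
  exact ⟨(h v).1.trans (mul_le_mul_of_nonneg_right h1 (qf_nonneg hB v)),
    (h v).2.trans (mul_le_mul_of_nonneg_right h1 (qf_nonneg hA v))⟩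

/-- The Thompson distance. -/
noncomputable def td (A B : Matrix n n ℝ) : ℝ := sInf {r : ℝ | 0 ≤ r ∧ Nr r A B}

theorem td_nonneg (A B : Matrix n n ℝ) : 0 ≤ td A B := Real.sInf_nonneg fun _ h => h.1

theorem nr_exists {A B : Matrix n n ℝ} (hA : A.PosDef) (hB : B.PosDef) :
    ∃ r : ℝ, 0 ≤ r ∧ Nr r A B := by
  obtain ⟨g, d, h1, h2, rfl, rfl⟩ := simd' hA hB
  refine ⟨∑ i, |Real.log 1 - Real.log (d i)|, Finset.sum_nonneg fun i _ => abs_nonneg _, ?_⟩
  rw [nr_fr h1 (fun _ => one_pos) h2]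
  intro i
  exact Finset.single_le_sum (f := fun i => |Real.log 1 - Real.log (d i)|)
    (fun i _ => abs_nonneg _) (Finset.mem_univ i)

theorem td_nr {A B : Matrix n n ℝ} (hA : A.PosDef) (hB : B.PosDef) : Nr (td A B) A B := by
  have h1 : IsClosed {r : ℝ | 0 ≤ r ∧ Nr r A B} := by
    simp only [nr_iff_qf, Set.setOf_and, Set.setOf_forall]
    refine isClosed_Ici.inter (isClosed_iInter fun v => ?_)
    exact (isClosed_le continuous_const (Real.continuous_exp.mul continuous_const)).inter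
      (isClosed_le continuous_const (Real.continuous_exp.mul continuous_const))
  exact (h1.csInf_mem (nr_exists hA hB) ⟨0, fun _ h => h.1⟩).2

theorem td_le_iff {A B : Matrix n n ℝ} (hA : A.PosDef) (hB : B.PosDef) {s : ℝ} :
    td A B ≤ s ↔ 0 ≤ s ∧ Nr s A B := by
  constructor
  · intro h
    exact ⟨(td_nonneg A B).trans h, (td_nr hA hB).mono hA hB h⟩
  · intro h
    exact csInf_le ⟨0, fun _ h => h.1⟩ h

theorem td_self {A : Matrix n n ℝ} (hA : A.PosDef) : td A A = 0 := by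
  refine le_antisymm ((td_le_iff hA hA).2 ⟨le_rfl, ?_⟩) (td_nonneg _ _)
  unfold Nr
  rw [Real.exp_zero, one_smul]
  exact ⟨Le.refl A, Le.refl A⟩

theorem td_comm (A B : Matrix n n ℝ) : td A B = td B A := by
  unfold td
  congr 1
  ext r
  exact and_congr_right fun _ => ⟨Nr.symm, Nr.symm⟩

theorem td_triangle {A B C : Matrix n n ℝ} (hA : A.PosDef) (hB : B.PosDef) (hC : C.PosDef) :
    td A C ≤ td A B + td B C :=
  (td_le_iff hA hC).2 ⟨add_nonneg (td_nonneg _ _) (td_nonneg _ _),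
    (td_nr hA hB).trans (td_nr hB hC)⟩

theorem eq_of_td {A B : Matrix n n ℝ} (hA : A.PosDef) (hB : B.PosDef) (h : td A B = 0) :
    A = B := by
  have h1 := td_nr hA hB
  rw [h] at h1
  unfold Nr at h1
  rw [Real.exp_zero, one_smul, one_smul] at h1
  exact le_antisymm' (isHermitian_iff.1 hA.1) (isHermitian_iff.1 hB.1) h1.1 h1.2

theorem td_cong {A B g : Matrix n n ℝ} (hg : IsUnit g.det) :
    td (g * A * gᵀ) (g * B * gᵀ) = td A B := by
  unfold td
  simp only [Nr.cong_iff hg]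

theorem td_fr {g : Matrix n n ℝ} (hg : IsUnit g.det) {a b : n → ℝ}
    (ha : ∀ i, 0 < a i) (hb : ∀ i, 0 < b i) {s : ℝ} :
    td (fr g a) (fr g b) ≤ s ↔ 0 ≤ s ∧ ∀ i, |Real.log (a i) - Real.log (b i)| ≤ s := by
  rw [td_le_iff (posDef_fr hg ha) (posDef_fr hg hb), nr_fr hg ha hb]

theorem td_inv {A B : Matrix n n ℝ} (hA : A.PosDef) (hB : B.PosDef) :
    td A⁻¹ B⁻¹ = td A B := by
  obtain ⟨g, d, h1, h2, rfl, rfl⟩ := simd' hA hB
  have h3 : ∀ s, td (fr g fun _ => 1)⁻¹ (fr g d)⁻¹ ≤ s ↔ td (fr g fun _ => 1) (fr g d) ≤ s := by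
    intro s
    rw [inv_fr h1 (fun _ => one_pos), inv_fr h1 h2, td_fr h1 (fun _ => one_pos) h2,
      td_fr (det_invT h1) (fun _ => inv_pos.2 one_pos) (fun i => inv_pos.2 (h2 i))]
    refine and_congr_right fun _ => forall_congr' fun i => ?_
    rw [Real.log_inv, Real.log_inv, neg_sub_neg, abs_sub_comm]
  exact le_antisymm ((h3 _).2 le_rfl) ((h3 _).1 le_rfl)

/-- Distances on a line. -/
theorem td_gm {A B : Matrix n n ℝ} (hA : A.PosDef) (hB : B.PosDef) (s t : ℝ) :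
    td (gm A B s) (gm A B t) = |s - t| * td A B := by
  obtain ⟨g, d, h1, h2, h3, h4⟩ := simd' hA hB
  have h5 : ∀ r : ℝ, gm A B r = fr g (fun i => d i ^ r) := by
    intro r
    rw [h3, h4, gm_fr h1 (fun _ => one_pos) h2, one_rp]
  have h6 : ∀ c : ℝ, td A B ≤ c ↔ 0 ≤ c ∧ ∀ i, |Real.log (d i)| ≤ c := by
    intro c
    rw [h3, h4, td_fr h1 (fun _ => one_pos) h2]
    simp only [Real.log_one, zero_sub, abs_neg]
  have h7 : ∀ c : ℝ, td (gm A B s) (gm A B t) ≤ c ↔
      0 ≤ c ∧ ∀ i, |s - t| * |Real.log (d i)| ≤ c := by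
    intro c
    rw [h5, h5, td_fr h1 (fun i => Real.rpow_pos_of_pos (h2 i) _)
      (fun i => Real.rpow_pos_of_pos (h2 i) _)]
    refine and_congr_right fun _ => forall_congr' fun i => ?_
    rw [Real.log_rpow (h2 i), Real.log_rpow (h2 i), ← sub_mul, abs_mul]
  refine le_antisymm ?_ ?_
  · rw [h7]
    refine ⟨mul_nonneg (abs_nonneg _) (td_nonneg _ _), fun i => ?_⟩
    exact mul_le_mul_of_nonneg_left (((h6 _).1 le_rfl).2 i) (abs_nonneg _)
  · rcases (abs_nonneg (s - t)).eq_or_lt with h0 | h0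
    · rw [← h0, zero_mul]
      exact td_nonneg _ _
    · rw [mul_comm, ← le_div_iff₀ h0, h6]
      refine ⟨div_nonneg (td_nonneg _ _) h0.le, fun i => ?_⟩
      rw [le_div_iff₀ h0, mul_comm]
      exact ((h7 _).1 le_rfl).2 i

theorem posDef_smul {A : Matrix n n ℝ} (hA : A.PosDef) {c : ℝ} (hc : 0 < c) :
    (c • A).PosDef := by
  refine posDef_of_qf ?_ fun v hv => ?_
  · rw [transpose_smul, isHermitian_iff.1 hA.1]
  · rw [qf_smul]
    exact mul_pos hc (qf_pos hA hv)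

/-- Convexity. -/
theorem td_cvx {A B C D : Matrix n n ℝ} (hA : A.PosDef) (hB : B.PosDef) (hC : C.PosDef)
    (hD : D.PosDef) {t : ℝ} (h0 : 0 ≤ t) (h1 : t ≤ 1) :
    td (gm A B t) (gm C D t) ≤ (1 - t) * td A C + t * td B D := by
  rw [td_le_iff (gm_posDef hA hB t) (gm_posDef hC hD t)]
  have h2 : 0 ≤ 1 - t := by linarith
  refine ⟨add_nonneg (mul_nonneg h2 (td_nonneg _ _)) (mul_nonneg h0 (td_nonneg _ _)), ?_⟩
  have key : ∀ A B C D : Matrix n n ℝ, A.PosDef → B.PosDef → C.PosDef → D.PosDef →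
      ∀ r s : ℝ, Le A (Real.exp r • C) → Le B (Real.exp s • D) →
        Le (gm A B t) (Real.exp ((1 - t) * r + t * s) • gm C D t) := by
    intro A B C D hA hB hC hD r s hr hs
    have h3 := gm_mono hA hB (posDef_smul hC (Real.exp_pos r)) (posDef_smul hD (Real.exp_pos s))
      hr hs h0 h1
    rw [gm_smul hC hD (Real.exp_pos r) (Real.exp_pos s)] at h3
    have h4 : Real.exp r ^ (1 - t) * Real.exp s ^ t = Real.exp ((1 - t) * r + t * s) := by
      rw [← Real.exp_mul, ← Real.exp_mul, ← Real.exp_add]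
      congr 1
      ring
    rwa [h4] at h3
  exact ⟨key A B C D hA hB hC hD _ _ (td_nr hA hC).1 (td_nr hB hD).1,
    key C D A B hC hD hA hB _ _ (td_nr hA hC).2 (td_nr hB hD).2⟩

/-! ### The metric space -/

/-- The positive definite matrices with the Thompson metric. -/
def PD (n : Type) [Fintype n] [DecidableEq n] : Type := {A : Matrix n n ℝ // A.PosDef}

noncomputable instance : MetricSpace (PD n) where
  dist A B := td A.1 B.1
  dist_self A := td_self A.2
  dist_comm A B := td_comm A.1 B.1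
  dist_triangle A B C := td_triangle A.2 B.2 C.2
  eq_of_dist_eq_zero {A B} h := Subtype.ext (eq_of_td A.2 B.2 h)

theorem PD.dist_eq (A B : PD n) : dist A B = td A.1 B.1 := rfl

/-- The lines in the space of positive definite matrices. -/
noncomputable def PD.ln (A B : PD n) (t : ℝ) : PD n := ⟨gm A.1 B.1 t, gm_posDef A.2 B.2 t⟩

theorem PD.ln0 (A B : PD n) : PD.ln A B 0 = A := Subtype.ext (gm_zero A.2 B.2)

theorem PD.ln1 (A B : PD n) : PD.ln A B 1 = B := Subtype.ext (gm_one A.2 B.2)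

theorem PD.lnln (A B : PD n) (s t r : ℝ) :
    PD.ln (PD.ln A B s) (PD.ln A B t) r = PD.ln A B (s + r * (t - s)) :=
  Subtype.ext (gm_gm A.2 B.2 s t r)

theorem PD.dln (A B : PD n) (s t : ℝ) :
    dist (PD.ln A B s) (PD.ln A B t) = |s - t| * dist A B := td_gm A.2 B.2 s t

theorem PD.cvx (A B C D : PD n) (s : ℝ) (h0 : 0 ≤ s) (h1 : s ≤ 1) :
    dist (PD.ln A B s) (PD.ln C D s) ≤ (1 - s) * dist A C + s * dist B D :=
  td_cvx A.2 B.2 C.2 D.2 h0 h1

end Pool.Agent.ZX
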