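import Pool.Agent.Lib.MP_8f66f0_al_ZX.Mean

/-! Project ZERO, part X: the means are monotone (Loewner, Heinz). -/

set_option autoImplicit false

namespace Pool.Agent.ZX

open Matrix Filter Topology

variable {n : Type} [Fintype n] [DecidableEq n]

/-- The bilinear form in a frame. -/
theorem bf_fr (g : Matrix n n ℝ) (d v w : n → ℝ) :
    v ⬝ᵥ (fr g d *ᵥ w) = ∑ i, d i * (gᵀ *ᵥ v) i * (gᵀ *ᵥ w) i := by
  unfold fr
  rw [← mulVec_mulVec, ← mulVec_mulVec, dotProduct_mulVec, ← mulVec_transpose]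
  unfold dotProduct
  refine Finset.sum_congr rfl fun i _ => ?_
  rw [mulVec_diagonal]
  ring

/-- The block matrix with rows `A, A # B` and `A # B, B` is not negative. -/
theorem block {A B : Matrix n n ℝ} (hA : A.PosDef) (hB : B.PosDef) (v w : n → ℝ) :
    2 * (v ⬝ᵥ (gm A B (1 / 2) *ᵥ w)) ≤ qf A v + qf B w := by
  obtain ⟨g, d, h1, h2, rfl, rfl⟩ := simd' hA hB
  rw [gm_fr h1 (fun _ => one_pos) h2, one_rp, bf_fr, qf_fr, qf_fr, Finset.mul_sum,
    ← Finset.sum_add_distrib]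
  refine Finset.sum_le_sum fun i _ => ?_
  have h3 : d i = (d i ^ (1 / 2 : ℝ)) ^ 2 := by
    rw [← Real.sqrt_eq_rpow, Real.sq_sqrt (h2 i).le]
  have h4 := sq_nonneg ((gᵀ *ᵥ v) i - d i ^ (1 / 2 : ℝ) * (gᵀ *ᵥ w) i)
  have h5 : d i * (gᵀ *ᵥ w) i ^ 2 = (d i ^ (1 / 2 : ℝ)) ^ 2 * (gᵀ *ᵥ w) i ^ 2 := by
    rw [← h3]
  rw [h5]
  nlinarith

/-- `G ^ 2 ≤ S ^ 2`, `S ≥ 0` diagonal, gives `G ≤ S`. -/
theorem le_of_sq {G : Matrix n n ℝ} (hG : Gᵀ = G) {s : n → ℝ} (hs : ∀ i, 0 ≤ s i)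
    (h : ∀ y : n → ℝ, (G *ᵥ y) ⬝ᵥ (G *ᵥ y) ≤ ∑ i, (s i) ^ 2 * (y i) ^ 2) :
    Le G (diagonal s) := by
  have h1 : (G - diagonal s)ᵀ = G - diagonal s := by
    rw [transpose_sub, hG, diagonal_transpose]
  obtain ⟨u, a, k1, k2, k3⟩ := spec (isHermitian_iff.2 h1)
  have hu : IsUnit u.det := by
    have := congrArg Matrix.det k1
    rw [det_mul, det_transpose, det_one] at this
    exact IsUnit.of_mul_eq_one _ this
  have h2 : ∀ i, a i ≤ 0 := by
    intro i
    by_contra hi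
    push Not at hi
    set y : n → ℝ := u *ᵥ Pi.single i 1 with hy
    have h3 : (G - diagonal s) *ᵥ y = a i • y := by
      rw [k3, hy]
      unfold fr
      rw [mulVec_mulVec, Matrix.mul_assoc, k2, Matrix.mul_one, ← mulVec_mulVec]
      have h4 : diagonal a *ᵥ (Pi.single i (1 : ℝ) : n → ℝ) = a i • Pi.single i 1 := by
        funext j
        rw [mulVec_diagonal, Pi.smul_apply, smul_eq_mul]
        by_cases hj : j = i
        · rw [hj]
        · rw [Pi.single_eq_of_ne hj, mul_zero, mul_zero]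
      rw [h4, mulVec_smul]
    have h4 : ∀ j, (G *ᵥ y) j = s j * y j + a i * y j := by
      intro j
      have h5 := congrFun h3 j
      rw [sub_mulVec, Pi.sub_apply, mulVec_diagonal, Pi.smul_apply, smul_eq_mul] at h5
      linarith
    have h5 : y ⬝ᵥ y = 1 := by
      rw [hy, dotProduct_mulVec, ← mulVec_transpose, mulVec_mulVec, k2, one_mulVec,
        dotProduct_single, Pi.single_eq_same, one_mul]
    have h6 := h y
    have h7 : (G *ᵥ y) ⬝ᵥ (G *ᵥ y) = ∑ j, (s j * y j + a i * y j) ^ 2 := by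
      unfold dotProduct
      refine Finset.sum_congr rfl fun j _ => ?_
      rw [h4 j]
      ring
    rw [h7] at h6
    have h8 : ∑ j, ((s j) ^ 2 * (y j) ^ 2 + (a i) ^ 2 * (y j * y j)) ≤
        ∑ j, (s j * y j + a i * y j) ^ 2 := by
      refine Finset.sum_le_sum fun j _ => ?_
      nlinarith [mul_nonneg (mul_nonneg (hs j) hi.le) (sq_nonneg (y j))]
    rw [Finset.sum_add_distrib, ← Finset.mul_sum] at h8
    have h9 : ∑ j, y j * y j = 1 := h5
    rw [h9] at h8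
    nlinarith [mul_pos hi hi]
  have h3 : fr u (fun _ => (0 : ℝ)) = 0 := by
    unfold fr
    rw [show diagonal (fun _ : n => (0 : ℝ)) = 0 from diagonal_zero, Matrix.mul_zero,
      Matrix.zero_mul]
  intro v
  have h4 := (le_fr hu).2 h2 v
  rw [← k3, qf_sub, h3] at h4
  have h5 : qf (0 : Matrix n n ℝ) v = 0 := by
    unfold qf
    rw [zero_mulVec, dotProduct_zero]
  rw [h5] at h4
  linarith

theorem mono_half {A B C D : Matrix n n ℝ} (hA : A.PosDef) (hB : B.PosDef) (hC : C.PosDef)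
    (hD : D.PosDef) (h : Le A C) (k : Le B D) : Le (gm A B (1 / 2)) (gm C D (1 / 2)) := by
  obtain ⟨g, d, h1, h2, rfl, rfl⟩ := simd' hC hD
  have hg1 : IsUnit (g⁻¹).det := by rw [det_nonsing_inv]; exact h1.ringInverse
  set A' := g⁻¹ * A * (g⁻¹)ᵀ with hA'
  set B' := g⁻¹ * B * (g⁻¹)ᵀ with hB'
  have pA : A'.PosDef := posDef_cong hg1 hA
  have pB : B'.PosDef := posDef_cong hg1 hB
  have e1 : ∀ X : Matrix n n ℝ, g * (g⁻¹ * X * (g⁻¹)ᵀ) * gᵀ = X := by
    intro X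
    have h4 : (g⁻¹)ᵀ * gᵀ = 1 := by
      rw [← transpose_mul, mul_nonsing_inv g h1, transpose_one]
    calc g * (g⁻¹ * X * (g⁻¹)ᵀ) * gᵀ = (g * g⁻¹) * X * ((g⁻¹)ᵀ * gᵀ) := by
          simp only [Matrix.mul_assoc]
      _ = X := by rw [mul_nonsing_inv g h1, h4, Matrix.one_mul, Matrix.mul_one]
  have h3 : Le A' (diagonal fun _ => 1) := by
    have := h.cong g⁻¹
    unfold fr at this
    rwa [inv_cancel h1] at this
  have h4 : Le B' (diagonal d) := by
    have := k.cong g⁻¹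
    unfold fr at this
    rwa [inv_cancel h1] at this
  have h5 : gm A B (1 / 2) = g * gm A' B' (1 / 2) * gᵀ := by
    rw [← gm_cong pA pB h1, e1, e1]
  rw [h5, gm_fr h1 (fun _ => one_pos) h2, one_rp]
  unfold fr
  rw [Le.cong_iff h1]
  have hGs : (gm A' B' (1 / 2))ᵀ = gm A' B' (1 / 2) := isHermitian_iff.1 (gm_posDef pA pB _).1
  refine le_of_sq hGs (fun i => (Real.rpow_pos_of_pos (h2 i) _).le) fun y => ?_
  have h6 := block pA pB (gm A' B' (1 / 2) *ᵥ y) y
  have h7 := h3 (gm A' B' (1 / 2) *ᵥ y)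
  have h8 := h4 y
  rw [qf_diag] at h7 h8
  have h9 : ∑ i, (1 : ℝ) * (gm A' B' (1 / 2) *ᵥ y) i ^ 2 =
      (gm A' B' (1 / 2) *ᵥ y) ⬝ᵥ (gm A' B' (1 / 2) *ᵥ y) := by
    unfold dotProduct
    exact Finset.sum_congr rfl fun i _ => by ring
  have h10 : ∑ i, d i * y i ^ 2 = ∑ i, (d i ^ (1 / 2 : ℝ)) ^ 2 * y i ^ 2 := by
    refine Finset.sum_congr rfl fun i _ => ?_
    rw [← Real.sqrt_eq_rpow, Real.sq_sqrt (h2 i).le]
  rw [h9] at h7
  rw [h10] at h8
  linarith

theorem mono_dy {A B C D : Matrix n n ℝ} (hA : A.PosDef) (hB : B.PosDef) (hC : C.PosDef)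
    (hD : D.PosDef) (h : Le A C) (k : Le B D) (m : ℕ) :
    ∀ j : ℕ, j ≤ 2 ^ m → Le (gm A B (j / 2 ^ m)) (gm C D (j / 2 ^ m)) := by
  induction m with
  | zero =>
    intro j hj
    rw [pow_zero] at hj
    interval_cases j
    · rw [Nat.cast_zero, zero_div, gm_zero hA hB, gm_zero hC hD]
      exact h
    · rw [Nat.cast_one, pow_zero, div_one, gm_one hA hB, gm_one hC hD]
      exact k
  | succ m ih =>
    intro j hj
    rcases Nat.even_or_odd' j with ⟨l, rfl | rfl⟩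
    · have h1 : ((2 * l : ℕ) : ℝ) / 2 ^ (m + 1) = l / 2 ^ m := by
        rw [Nat.cast_mul, Nat.cast_ofNat, pow_succ]
        field_simp
      rw [h1]
      refine ih l ?_
      rw [pow_succ] at hj
      omega
    · have h1 : ∀ X Y : Matrix n n ℝ, X.PosDef → Y.PosDef →
          gm X Y (((2 * l + 1 : ℕ) : ℝ) / 2 ^ (m + 1)) =
          gm (gm X Y (l / 2 ^ m)) (gm X Y ((l + 1 : ℕ) / 2 ^ m)) (1 / 2) := by
        intro X Y hX hY
        rw [gm_gm hX hY]
        congr 1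
        push_cast
        rw [pow_succ]
        field_simp
        ring
      rw [h1 A B hA hB, h1 C D hC hD]
      rw [pow_succ] at hj
      exact mono_half (gm_posDef hA hB _) (gm_posDef hA hB _) (gm_posDef hC hD _)
        (gm_posDef hC hD _) (ih l (by omega)) (ih (l + 1) (by omega))

theorem gm_cont {A B : Matrix n n ℝ} (hA : A.PosDef) (hB : B.PosDef) (v : n → ℝ) :
    Continuous fun t : ℝ => qf (gm A B t) v := by
  obtain ⟨g, d, h1, h2, rfl, rfl⟩ := simd' hA hB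
  have h3 : (fun t : ℝ => qf (gm (fr g fun _ => 1) (fr g d) t) v) =
      fun t : ℝ => ∑ i, d i ^ t * ((gᵀ *ᵥ v) i) ^ 2 := by
    funext t
    rw [gm_fr h1 (fun _ => one_pos) h2, one_rp, qf_fr]
  rw [h3]
  refine continuous_finsetSum _ fun i _ => ?_
  exact (Real.continuous_const_rpow (h2 i).ne').mul continuous_const

/-- The means are monotone. -/
theorem gm_mono {A B C D : Matrix n n ℝ} (hA : A.PosDef) (hB : B.PosDef) (hC : C.PosDef)
    (hD : D.PosDef) (h : Le A C) (k : Le B D) {t : ℝ} (h0 : 0 ≤ t) (h1 : t ≤ 1) :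
    Le (gm A B t) (gm C D t) := by
  intro v
  have h2 : Tendsto (fun m : ℕ => ((⌊t * 2 ^ m⌋₊ : ℕ) : ℝ) / 2 ^ m) atTop (𝓝 t) := by
    have h3 : Tendsto (fun m : ℕ => (2 : ℝ) ^ m) atTop atTop :=
      tendsto_pow_atTop_atTop_of_one_lt one_lt_two
    exact (tendsto_nat_floor_mul_div_atTop h0).comp h3
  have h3 := ((gm_cont hA hB v).tendsto t).comp h2
  have h4 := ((gm_cont hC hD v).tendsto t).comp h2
  refine le_of_tendsto_of_tendsto h3 h4 (Eventually.of_forall fun m => ?_)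
  refine mono_dy hA hB hC hD h k m _ ?_ v
  have h5 : t * 2 ^ m ≤ ((2 ^ m : ℕ) : ℝ) := by
    rw [Nat.cast_pow, Nat.cast_ofNat]
    have : (0 : ℝ) < 2 ^ m := by positivity
    nlinarith
  exact Nat.floor_le_of_le h5

end Pool.Agent.ZX
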