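import Mathlib

/-! Project ZERO, part X: simultaneous diagonalization of two symmetric matrices, one of which is
positive definite, and the order of symmetric matrices. -/

set_option autoImplicit false

namespace Pool.Agent.ZX

open Matrix

variable {n : Type} [Fintype n] [DecidableEq n]

/-- The diagonal matrix `d` in the frame `g`. -/
def fr (g : Matrix n n ℝ) (d : n → ℝ) : Matrix n n ℝ := g * diagonal d * gᵀ

theorem fr_one (g : Matrix n n ℝ) : fr g (fun _ => 1) = g * gᵀ := by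
  unfold fr
  rw [diagonal_one, Matrix.mul_one]

theorem one_fr (d : n → ℝ) : fr 1 d = diagonal d := by
  unfold fr
  rw [transpose_one, Matrix.mul_one, Matrix.one_mul]

theorem mul_fr (h g : Matrix n n ℝ) (d : n → ℝ) : fr (h * g) d = h * fr g d * hᵀ := by
  unfold fr
  rw [transpose_mul]
  simp only [Matrix.mul_assoc]

theorem fr_symm (g : Matrix n n ℝ) (d : n → ℝ) : (fr g d)ᵀ = fr g d := by
  unfold fr
  rw [transpose_mul, transpose_mul, transpose_transpose, diagonal_transpose, Matrix.mul_assoc]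

/-- The value of the quadratic form. -/
def qf (A : Matrix n n ℝ) (v : n → ℝ) : ℝ := v ⬝ᵥ (A *ᵥ v)

theorem qf_cong (g A : Matrix n n ℝ) (v : n → ℝ) : qf (g * A * gᵀ) v = qf A (gᵀ *ᵥ v) := by
  unfold qf
  rw [← mulVec_mulVec, ← mulVec_mulVec, dotProduct_mulVec, ← mulVec_transpose]

theorem qf_diag (d v : n → ℝ) : qf (diagonal d) v = ∑ i, d i * (v i) ^ 2 := by
  unfold qf dotProduct
  refine Finset.sum_congr rfl fun i _ => ?_
  rw [mulVec_diagonal]
  ring

theorem qf_fr (g : Matrix n n ℝ) (d v : n → ℝ) :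
    qf (fr g d) v = ∑ i, d i * ((gᵀ *ᵥ v) i) ^ 2 := by
  unfold fr
  rw [qf_cong, qf_diag]

theorem qf_add (A B : Matrix n n ℝ) (v : n → ℝ) : qf (A + B) v = qf A v + qf B v := by
  unfold qf
  rw [add_mulVec, dotProduct_add]

theorem qf_sub (A B : Matrix n n ℝ) (v : n → ℝ) : qf (A - B) v = qf A v - qf B v := by
  unfold qf
  rw [sub_mulVec, dotProduct_sub]

theorem qf_smul (c : ℝ) (A : Matrix n n ℝ) (v : n → ℝ) : qf (c • A) v = c * qf A v := by
  unfold qf
  rw [smul_mulVec, dotProduct_smul, smul_eq_mul]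

/-- The order of symmetric matrices. -/
def Le (A B : Matrix n n ℝ) : Prop := ∀ v, qf A v ≤ qf B v

theorem Le.refl (A : Matrix n n ℝ) : Le A A := fun _ => le_rfl

theorem Le.trans {A B C : Matrix n n ℝ} (h : Le A B) (k : Le B C) : Le A C :=
  fun v => (h v).trans (k v)

theorem Le.cong {A B : Matrix n n ℝ} (h : Le A B) (g : Matrix n n ℝ) :
    Le (g * A * gᵀ) (g * B * gᵀ) := fun v => by
  rw [qf_cong, qf_cong]
  exact h _

theorem inv_cancel {g : Matrix n n ℝ} (hg : IsUnit g.det) (A : Matrix n n ℝ) :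
    g⁻¹ * (g * A * gᵀ) * (g⁻¹)ᵀ = A := by
  have h1 : gᵀ * (g⁻¹)ᵀ = 1 := by
    rw [← transpose_mul, nonsing_inv_mul g hg, transpose_one]
  calc g⁻¹ * (g * A * gᵀ) * (g⁻¹)ᵀ = (g⁻¹ * g) * A * (gᵀ * (g⁻¹)ᵀ) := by
        simp only [Matrix.mul_assoc]
    _ = A := by rw [nonsing_inv_mul g hg, h1, Matrix.one_mul, Matrix.mul_one]

theorem Le.cong_iff {A B g : Matrix n n ℝ} (hg : IsUnit g.det) :
    Le (g * A * gᵀ) (g * B * gᵀ) ↔ Le A B := by
  constructor
  · intro h
    have h1 := h.cong g⁻¹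
    rwa [inv_cancel hg, inv_cancel hg] at h1
  · intro h
    exact h.cong g

theorem le_diag {d e : n → ℝ} : Le (diagonal d) (diagonal e) ↔ ∀ i, d i ≤ e i := by
  constructor
  · intro h i
    have h1 := h (Pi.single i 1)
    rw [qf_diag, qf_diag] at h1
    have h2 : ∀ f : n → ℝ, ∑ j, f j * (Pi.single i (1 : ℝ) : n → ℝ) j ^ 2 = f i := by
      intro f
      rw [Finset.sum_eq_single i]
      · rw [Pi.single_eq_same]; ring
      · intro j _ hj
        rw [Pi.single_eq_of_ne hj]; ring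
      · intro hi
        exact absurd (Finset.mem_univ i) hi
    rwa [h2, h2] at h1
  · intro h v
    rw [qf_diag, qf_diag]
    exact Finset.sum_le_sum fun i _ => mul_le_mul_of_nonneg_right (h i) (sq_nonneg _)

theorem le_fr {g : Matrix n n ℝ} (hg : IsUnit g.det) {d e : n → ℝ} :
    Le (fr g d) (fr g e) ↔ ∀ i, d i ≤ e i := by
  unfold fr
  rw [Le.cong_iff hg, le_diag]

theorem smul_fr (c : ℝ) (g : Matrix n n ℝ) (d : n → ℝ) :
    c • fr g d = fr g (fun i => c * d i) := by
  have h1 : diagonal (fun i => c * d i) = c • diagonal d := by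
    rw [← diagonal_smul]
    rfl
  unfold fr
  rw [h1, Matrix.mul_smul, Matrix.smul_mul]

/-- The spectral theorem. -/
theorem spec {A : Matrix n n ℝ} (hA : A.IsHermitian) :
    ∃ (u : Matrix n n ℝ) (d : n → ℝ), u * uᵀ = 1 ∧ uᵀ * u = 1 ∧ A = fr u d := by
  have h0 : star (hA.eigenvectorUnitary : Matrix n n ℝ) =
      (hA.eigenvectorUnitary : Matrix n n ℝ)ᵀ := by
    rw [star_eq_conjTranspose, conjTranspose_eq_transpose_of_trivial]
  refine ⟨(hA.eigenvectorUnitary : Matrix n n ℝ), hA.eigenvalues, ?_, ?_, ?_⟩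
  · rw [← h0]
    exact Unitary.coe_mul_star_self _
  · rw [← h0]
    exact Unitary.coe_star_mul_self _
  · have h1 := hA.spectral_theorem
    rw [Unitary.conjStarAlgAut_apply, h0] at h1
    exact h1

theorem isHermitian_iff {A : Matrix n n ℝ} : A.IsHermitian ↔ Aᵀ = A := by
  unfold Matrix.IsHermitian
  rw [conjTranspose_eq_transpose_of_trivial]

theorem qf_pos {A : Matrix n n ℝ} (hA : A.PosDef) {v : n → ℝ} (hv : v ≠ 0) : 0 < qf A v := by
  have := hA.dotProduct_mulVec_pos hv
  simpa [qf] using this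

theorem qf_nonneg {A : Matrix n n ℝ} (hA : A.PosDef) (v : n → ℝ) : 0 ≤ qf A v := by
  by_cases hv : v = 0
  · rw [hv]
    unfold qf
    rw [zero_dotProduct]
  · exact (qf_pos hA hv).le

theorem posDef_of_qf {A : Matrix n n ℝ} (h : Aᵀ = A) (h1 : ∀ v, v ≠ 0 → 0 < qf A v) :
    A.PosDef := by
  refine Matrix.PosDef.of_dotProduct_mulVec_pos (isHermitian_iff.2 h) fun v hv => ?_
  have := h1 v hv
  simpa [qf] using this

theorem posDef_cong {A g : Matrix n n ℝ} (hg : IsUnit g.det) (hA : A.PosDef) :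
    (g * A * gᵀ).PosDef := by
  refine posDef_of_qf ?_ fun v hv => ?_
  · rw [transpose_mul, transpose_mul, transpose_transpose, isHermitian_iff.1 hA.1,
      Matrix.mul_assoc]
  · rw [qf_cong]
    refine qf_pos hA fun h0 => hv ?_
    have h1 : (g⁻¹)ᵀ *ᵥ (gᵀ *ᵥ v) = 0 := by rw [h0, mulVec_zero]
    rw [mulVec_mulVec, ← transpose_mul, mul_nonsing_inv g hg, transpose_one, one_mulVec] at h1
    exact h1

theorem posDef_fr {g : Matrix n n ℝ} (hg : IsUnit g.det) {d : n → ℝ} (hd : ∀ i, 0 < d i) :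
    (fr g d).PosDef := posDef_cong hg (Matrix.PosDef.diagonal hd)

theorem pos_of_posDef {g : Matrix n n ℝ} (hg : IsUnit g.det) {d : n → ℝ}
    (h : (fr g d).PosDef) (i : n) : 0 < d i := by
  have h1 := posDef_cong (g := g⁻¹) (by rw [det_nonsing_inv]; exact hg.ringInverse) h
  unfold fr at h1
  rw [inv_cancel hg] at h1
  exact posDef_diagonal_iff.1 h1 i

/-- Simultaneous diagonalization. -/
theorem simd {A B : Matrix n n ℝ} (hA : A.PosDef) (hB : Bᵀ = B) :
    ∃ (g : Matrix n n ℝ) (d : n → ℝ), IsUnit g.det ∧ A = g * gᵀ ∧ B = fr g d := by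
  obtain ⟨u, a, h1, h2, h3⟩ := spec hA.1
  have hu : IsUnit u.det := by
    have := congrArg Matrix.det h1
    rw [det_mul, det_transpose, det_one] at this
    exact IsUnit.of_mul_eq_one _ this
  have ha : ∀ i, 0 < a i := pos_of_posDef hu (by rw [← h3]; exact hA)
  set g := u * diagonal (fun i => Real.sqrt (a i)) with hgd
  have hg : IsUnit g.det := by
    rw [hgd, det_mul, det_diagonal]
    refine hu.mul (isUnit_iff_ne_zero.2 ?_)
    exact Finset.prod_ne_zero_iff.2 fun i _ => (Real.sqrt_pos.2 (ha i)).ne'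
  have hgg : g * gᵀ = A := by
    rw [hgd, transpose_mul, diagonal_transpose, h3]
    unfold fr
    rw [Matrix.mul_assoc, ← Matrix.mul_assoc (diagonal _) (diagonal _), diagonal_mul_diagonal,
      Matrix.mul_assoc]
    congr 3
    funext i
    exact Real.mul_self_sqrt (ha i).le
  have hg1 : IsUnit (g⁻¹).det := by rw [det_nonsing_inv]; exact hg.ringInverse
  have hC : (g⁻¹ * B * (g⁻¹)ᵀ).IsHermitian := by
    rw [isHermitian_iff, transpose_mul, transpose_mul, transpose_transpose, hB,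
      Matrix.mul_assoc]
  obtain ⟨v, d, k1, k2, k3⟩ := spec hC
  have hv : IsUnit v.det := by
    have := congrArg Matrix.det k1
    rw [det_mul, det_transpose, det_one] at this
    exact IsUnit.of_mul_eq_one _ this
  refine ⟨g * v, d, ?_, ?_, ?_⟩
  · rw [det_mul]; exact hg.mul hv
  · rw [transpose_mul, Matrix.mul_assoc, ← Matrix.mul_assoc v, k1, Matrix.one_mul, hgg]
  · rw [mul_fr, ← k3]
    have h4 : (g⁻¹)ᵀ * gᵀ = 1 := by
      rw [← transpose_mul, mul_nonsing_inv g hg, transpose_one]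
    calc B = (g * g⁻¹) * B * ((g⁻¹)ᵀ * gᵀ) := by
          rw [mul_nonsing_inv g hg, h4, Matrix.one_mul, Matrix.mul_one]
      _ = g * (g⁻¹ * B * (g⁻¹)ᵀ) * gᵀ := by simp only [Matrix.mul_assoc]

/-- The value of a function of the second matrix does not depend on the frame. -/
theorem fr_unique {g h : Matrix n n ℝ} {d e : n → ℝ} (hg : IsUnit g.det) (hh : IsUnit h.det)
    (h1 : g * gᵀ = h * hᵀ) (h2 : fr g d = fr h e) (f : ℝ → ℝ) :
    fr g (fun i => f (d i)) = fr h (fun i => f (e i)) := by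
  set k := g⁻¹ * h with hk
  have hgk : g * k = h := by
    rw [hk, ← Matrix.mul_assoc, mul_nonsing_inv g hg, Matrix.one_mul]
  have hkk : k * kᵀ = 1 := by
    have h3 := inv_cancel hg 1
    rw [Matrix.mul_one, h1] at h3
    rw [hk, transpose_mul]
    calc g⁻¹ * h * (hᵀ * (g⁻¹)ᵀ) = g⁻¹ * (h * hᵀ) * (g⁻¹)ᵀ := by simp only [Matrix.mul_assoc]
      _ = 1 := h3
  have hkk' : kᵀ * k = 1 := mul_eq_one_comm.1 hkk
  have h4 : diagonal d = fr k e := by
    have h5 := inv_cancel hg (diagonal d)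
    have h6 : fr h e = g * fr k e * gᵀ := by rw [← mul_fr, hgk]
    change g⁻¹ * fr g d * (g⁻¹)ᵀ = diagonal d at h5
    rw [h2, h6, inv_cancel hg] at h5
    exact h5.symm
  have h7 : diagonal d * k = k * diagonal e := by
    rw [h4]
    unfold fr
    rw [Matrix.mul_assoc, hkk', Matrix.mul_one]
  have h8 : diagonal (fun i => f (d i)) * k = k * diagonal (fun i => f (e i)) := by
    ext i j
    have h9 := congrFun (congrFun h7 i) j
    rw [diagonal_mul, mul_diagonal] at h9 ⊢
    by_cases hkz : k i j = 0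
    · rw [hkz, mul_zero, zero_mul]
    · have h10 : d i = e j := by
        rw [mul_comm] at h9
        exact mul_left_cancel₀ hkz h9
      rw [h10, mul_comm]
  have h11 : fr k (fun i => f (e i)) = diagonal (fun i => f (d i)) := by
    unfold fr
    rw [← h8, Matrix.mul_assoc, hkk, Matrix.mul_one]
  rw [← hgk, mul_fr, h11]
  rfl

theorem le_antisymm' {A B : Matrix n n ℝ} (hA : Aᵀ = A) (hB : Bᵀ = B) (h : Le A B)
    (k : Le B A) : A = B := by
  have h1 : ∀ v, qf (A - B) v = 0 := fun v => by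
    rw [qf_sub]
    linarith [h v, k v]
  have h2 : (A - B)ᵀ = A - B := by rw [transpose_sub, hA, hB]
  obtain ⟨u, d, k1, k2, k3⟩ := spec (isHermitian_iff.2 h2)
  have hu : IsUnit u.det := by
    have := congrArg Matrix.det k1
    rw [det_mul, det_transpose, det_one] at this
    exact IsUnit.of_mul_eq_one _ this
  have h3 : fr u (fun _ => (0 : ℝ)) = 0 := by
    unfold fr
    rw [show diagonal (fun _ : n => (0 : ℝ)) = 0 from diagonal_zero, Matrix.mul_zero,
      Matrix.zero_mul]
  have h5 : ∀ v : n → ℝ, qf (fr u fun _ => 0) v = 0 := by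
    intro v
    rw [h3]
    unfold qf
    rw [zero_mulVec, dotProduct_zero]
  have h6 : ∀ i, d i ≤ 0 := (le_fr hu).1 fun v => by
    rw [← k3, h1, h5]
  have h7 : ∀ i, 0 ≤ d i := (le_fr hu).1 fun v => by
    rw [← k3, h1, h5]
  have h8 : d = fun _ => 0 := funext fun i => le_antisymm (h6 i) (h7 i)
  rw [← sub_eq_zero, k3, h8, h3]

end Pool.Agent.ZX
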