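import Pool.Agent.Lib.MP_8f66f0_al_ZX.Eig
import Pool.Agent.Lib.MP_8f66f0_al_ZR.Lmul

/-! Project ZERO, part X: the forms of the positive involutions are stable under the lines. -/

set_option autoImplicit false

namespace Pool.Agent.ZX

open Matrix Module Pool.Agent.ZR

section

variable {O : Type} [Ring O] {N : ℕ} (e : Basis (Fin N) ℤ O)

/-- The product of `ℝ ⊗ O` as a bilinear map. -/
noncomputable def mB : (Fin N → ℝ) →ₗ[ℝ] (Fin N → ℝ) →ₗ[ℝ] (Fin N → ℝ) :=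
  LinearMap.mk₂ ℝ (mR e)
    (fun x x' y => by
      obtain ⟨L, h, -⟩ := tLmul N O e
      rw [← h, ← h, ← h, map_add, add_mulVec])
    (fun c x y => by
      obtain ⟨L, h, -⟩ := tLmul N O e
      rw [← h, ← h, map_smul, smul_mulVec])
    (fun x y y' => by
      obtain ⟨L, h, -⟩ := tLmul N O e
      rw [← h, ← h, ← h, mulVec_add])
    (fun c x y => by
      obtain ⟨L, h, -⟩ := tLmul N O e
      rw [← h, ← h, mulVec_smul])

theorem mB_apply (x y : Fin N → ℝ) : mB e x y = mR e x y := rfl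

theorem mR_smul (a b : ℝ) (x y : Fin N → ℝ) : mR e (a • x) (b • y) = (a * b) • mR e x y := by
  rw [← mB_apply, ← mB_apply, map_smul, map_smul, LinearMap.smul_apply, smul_smul, mul_comm]

/-- Automorphisms of the real algebra. -/
def IsAut (M : Matrix (Fin N) (Fin N) ℝ) : Prop :=
  ∀ x y : Fin N → ℝ, M *ᵥ mR e x y = mR e (M *ᵥ x) (M *ᵥ y)

/-- The involution of an element of `YO e`. -/
theorem yo_inv {A : Matrix (Fin N) (Fin N) ℝ} (h : A ∈ YO e) :
    ∃ S : Matrix (Fin N) (Fin N) ℝ, A * S = Tm e ∧ A = Tm e * S ∧ S * S = 1 ∧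
      ∀ x y : Fin N → ℝ, S *ᵥ mR e x y = mR e (S *ᵥ y) (S *ᵥ x) := by
  obtain ⟨-, S, h1, h2, h3⟩ := h
  refine ⟨S, ?_, h1.symm, h2, h3⟩
  rw [← h1, Matrix.mul_assoc, h2, Matrix.mul_one]

/-- The quotient of two elements of `YO e` is the product of the involutions. -/
theorem inv_mul_yo {A B S U : Matrix (Fin N) (Fin N) ℝ} (hA : A.PosDef)
    (h1 : A * S = Tm e) (h4 : B = Tm e * U) : A⁻¹ * B = S * U := by
  rw [h4, ← h1, ← Matrix.mul_assoc, ← Matrix.mul_assoc, nonsing_inv_mul _ (isUnit_det hA),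
    Matrix.one_mul]

/-- The powers of an automorphism `A⁻¹ B` are automorphisms. -/
theorem pw_aut {A B : Matrix (Fin N) (Fin N) ℝ} (hA : A.PosDef) (hB : B.PosDef)
    (h : IsAut e (A⁻¹ * B)) (t : ℝ) : IsAut e (pw A B t) := by
  have h1 : (mB e).compr₂ (Matrix.mulVecLin (pw A B t)) =
      (mB e).compl₁₂ (Matrix.mulVecLin (pw A B t)) (Matrix.mulVecLin (pw A B t)) := by
    refine ext_eig hA hB fun x c hc hx => ?_
    refine ext_eig hA hB fun y c' hc' hy => ?_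
    rw [LinearMap.compr₂_apply, LinearMap.compl₁₂_apply]
    simp only [Matrix.mulVecLin_apply, mB_apply]
    rw [pw_eig hA hB hx, pw_eig hA hB hy, mR_smul, ← Real.mul_rpow hc.le hc'.le]
    refine pw_eig hA hB ?_ t
    rw [h x y, hx, hy, mR_smul]
  intro x y
  exact congrArg (fun F : (Fin N → ℝ) →ₗ[ℝ] (Fin N → ℝ) →ₗ[ℝ] (Fin N → ℝ) => F x y) h1

/-- If `S` exchanges `φ` and `φ⁻¹` then it exchanges `φ ^ t` and `φ ^ (-t)`. -/
theorem pw_swap {A B S : Matrix (Fin N) (Fin N) ℝ} (hA : A.PosDef) (hB : B.PosDef)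
    (hS : S * S = 1) (h : (A⁻¹ * B) * S * (A⁻¹ * B) = S) (t : ℝ) :
    S * pw A B t * (S * pw A B t) = 1 := by
  have h1 : Matrix.mulVecLin (S * pw A B t * (S * pw A B t)) =
      Matrix.mulVecLin (1 : Matrix (Fin N) (Fin N) ℝ) := by
    refine ext_eig hA hB fun v c hc hv => ?_
    have h0 : (S * pw A B t * (S * pw A B t)) *ᵥ v = c ^ t • (S *ᵥ (pw A B t *ᵥ (S *ᵥ v))) := by
      rw [← mulVec_mulVec v, ← mulVec_mulVec v S, pw_eig hA hB hv, mulVec_smul, mulVec_smul,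
        ← mulVec_mulVec]
    rw [Matrix.mulVecLin_apply, Matrix.mulVecLin_apply, one_mulVec, h0]
    have h2 : (A⁻¹ * B) *ᵥ (S *ᵥ v) = c⁻¹ • (S *ᵥ v) := by
      have h3 : ((A⁻¹ * B) * S * (A⁻¹ * B)) *ᵥ v = c • ((A⁻¹ * B) *ᵥ (S *ᵥ v)) := by
        rw [← mulVec_mulVec, hv, mulVec_smul, ← mulVec_mulVec]
      rw [h] at h3
      conv_rhs => rw [h3, smul_smul, inv_mul_cancel₀ hc.ne', one_smul]
    rw [pw_eig hA hB h2, mulVec_smul, smul_smul, mulVec_mulVec, hS, one_mulVec,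
      Real.inv_rpow hc.le, mul_inv_cancel₀ (Real.rpow_pos_of_pos hc t).ne', one_smul]
  refine mat_ext fun v => ?_
  exact congrArg (fun F : (Fin N → ℝ) →ₗ[ℝ] (Fin N → ℝ) => F v) h1

/-- The forms of the positive involutions are stable under the lines. -/
theorem yo_gm {A B : Matrix (Fin N) (Fin N) ℝ} (hA : A ∈ YO e) (hB : B ∈ YO e) (t : ℝ) :
    gm A B t ∈ YO e := by
  obtain ⟨S, h1, h2, h3, h4⟩ := yo_inv e hA
  obtain ⟨U, k1, k2, k3, k4⟩ := yo_inv e hB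
  have h5 : A⁻¹ * B = S * U := inv_mul_yo e hA.1 h1 k2
  have h6 : IsAut e (A⁻¹ * B) := by
    intro x y
    rw [h5, ← mulVec_mulVec, k4, h4, mulVec_mulVec, mulVec_mulVec]
  have h7 : IsAut e (pw A B t) := pw_aut e hA.1 hB.1 h6 t
  refine ⟨gm_posDef hA.1 hB.1 t, S * pw A B t, ?_, ?_, ?_⟩
  · rw [← Matrix.mul_assoc, ← h2, mul_pw hA.1]
  · refine pw_swap hA.1 hB.1 h3 ?_ t
    rw [h5]
    calc S * U * S * (S * U) = S * U * (S * S) * U := by simp only [Matrix.mul_assoc]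
      _ = S := by rw [h3, Matrix.mul_one, Matrix.mul_assoc, k3, Matrix.mul_one]
  · intro x y
    rw [← mulVec_mulVec, h7 x y, h4, mulVec_mulVec, mulVec_mulVec]

end

end Pool.Agent.ZX
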